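import Mathlib
import Pool.Agent.H933R3.Defs

set_option autoImplicit false

/-!
# Project LC (MP_07bfe7_gt): definitions and statements of the modules
-/

namespace Pool.Agent.L0h44.LC

open Finset Pool.Agent.H933R3

section defs

variable {V : Type} [DecidableEq V]

/-- the boundary complex of a 4-dimensional pseudomanifold `K`: the faces of the tetrahedra that lie in exactly one
4-simplex of `K` -/
def bd (K : Finset (Finset V)) : Finset (Finset V) :=
  K.filter (fun σ => ∃ R ∈ K, R.card = 4 ∧ σ ⊆ R ∧ (K.filter (fun F => F.card = 5 ∧ R ⊆ F)).card = 1)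

/-- the Euler characteristic -/
def euler (K : Finset (Finset V)) : ℤ := ∑ σ ∈ K.filter (fun σ => σ.Nonempty), (-1) ^ (σ.card + 1)

/-- the graph of the vertices and edges of `D` is connected (and may be empty) -/
def EConn (D : Finset (Finset V)) : Prop :=
  ∀ u v : V, {u} ∈ D → {v} ∈ D → Relation.ReflTransGen (fun a b => ({a, b} : Finset V) ∈ D) u v

/-- flat labellings of the oriented edges of `K` by elements of a group (the triples `u, v, w` may have repetitions,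
so that `ρ u u = 1` and `ρ v u = (ρ u v)⁻¹` on the vertices and edges of `K`) -/
def Flat {H : Type} [Group H] (K : Finset (Finset V)) (ρ : V → V → H) : Prop :=
  ∀ u v w : V, ({u, v, w} : Finset V) ∈ K → ρ u v * ρ v w = ρ u w

/-- trivial labellings -/
def Triv {H : Type} [Group H] (K : Finset (Finset V)) (ρ : V → V → H) : Prop :=
  ∃ g : V → H, ∀ u v : V, ({u, v} : Finset V) ∈ K → ρ u v = (g u)⁻¹ * g v

end defs

/-- the group SU(2) -/
abbrev SU2 : Type := Matrix.specialUnitaryGroup (Fin 2) ℂ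

/-- Module RDG -/
def S_RDG : Prop := ∀ (V : Type) [DecidableEq V] (K 𝓕 G : Finset (Finset V)) (A R F F' : Finset V),
  IsCx K → (∀ X, IsFacet K X → X.card = 5) → AtMostTwo 4 K →
  (∀ X Y, IsFacet K X → IsFacet K Y → A ⊆ X → A ⊆ Y → Relation.ReflTransGen
    (fun X Y => IsFacet K X ∧ IsFacet K Y ∧ ∃ S ∈ K, S.card = 4 ∧ A ⊆ S ∧ S ⊆ X ∧ S ⊆ Y) X Y) →
  (∀ X ∈ 𝓕, IsFacet K X) → (∀ S ∈ G, S.card = 4 ∧ ∃ X ∈ 𝓕, ∃ Y ∈ 𝓕, X ≠ Y ∧ S ⊆ X ∧ S ⊆ Y) →
  A.card = 3 → A ⊆ R → R.card = 4 → R ∉ G → F ∈ 𝓕 → F' ∈ 𝓕 → F ≠ F' → R ⊆ F → R ⊆ F' →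
  SameFace 𝓕 G A F F' → ∀ S ∈ K, S.card = 4 → A ⊆ S → S = R ∨ S ∈ G

/-- Module TRV: locally constructible complexes are simply connected -/
def S_TRV : Prop := ∀ (V : Type) [DecidableEq V] (K : Finset (Finset V)) (H : Type) [Group H] (ρ : V → V → H),
  IsCx K → IsLC 4 K → Flat K ρ → Triv K ρ

/-- `Rs`: the triangles along which the local gluings are made -/
def GoodRs {V : Type} [DecidableEq V] (K Rs : Finset (Finset V)) : Prop :=
  (∀ A ∈ Rs, A ∈ K ∧ A.card = 3 ∧ A ∉ bd K) ∧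
  ((K \ bd K).filter (fun σ => σ.card = 4)).card + 1 = (K.filter (fun σ => σ.card = 5)).card + Rs.card ∧
  ∀ (H : Type) [Group H] (ρ : V → V → H), (∀ u, ρ u u = 1) → (∀ u v, ρ v u = (ρ u v)⁻¹) →
    (∀ u v w : V, ({u, v, w} : Finset V) ∈ K → ({u, v, w} : Finset V).card = 3 → ({u, v, w} : Finset V) ∉ Rs →
      ρ u v * ρ v w = ρ u w) → Flat K ρ

/-- Module COL -/
def S_COL : Prop := ∀ (V : Type) [DecidableEq V] (K : Finset (Finset V)), IsCx K → IsLC 4 K → ∃ Rs, GoodRs K Rs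

/-- Module SUR -/
def S_SUR : Prop := ∀ (V : Type) [DecidableEq V] (K Rs : Finset (Finset V)), IsCx K → IsLC 4 K → (bd K).Nonempty →
  EConn (bd K) → euler K - euler (bd K) = 1 → GoodRs K Rs →
  ∀ r ∈ (K \ bd K).filter (fun σ => σ.card = 3) \ Rs, ∃ b : Finset V → ZMod 2, (∀ e, e ∉ K \ bd K → b e = 0) ∧
    ∀ A ∈ (K \ bd K).filter (fun σ => σ.card = 3) \ Rs,
      ∑ e ∈ A.powersetCard 2, b e = if A = r then 1 else 0

/-- Module BU: a Borsuk-Ulam theorem for SU(2) x ... x SU(2) (`z` is `-1`) -/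
def S_BU : Prop := ∀ z : SU2, (z : Matrix (Fin 2) (Fin 2) ℂ) = -1 → ∀ (M : ℕ) (F : Fin M → (Fin M → SU2) → SU2),
  (∀ i, Continuous (F i)) →
  (∀ i k y, F i (Function.update y k (z * y k)) = if i = k then z * F i y else F i y) → ∃ y, ∀ i, F i y = 1

/-- Module SOL: extension of flat labellings of the boundary -/
def S_SOL : Prop := ∀ (n : ℕ) (K : Finset (Finset (Fin n))), IsCx K → IsLC 4 K → (bd K).Nonempty → EConn (bd K) →
  euler K - euler (bd K) = 1 → ∀ ρ : Fin n → Fin n → SU2, Flat (bd K) ρ →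
  ∃ ρ' : Fin n → Fin n → SU2, Flat K ρ' ∧ ∀ u v : Fin n, {u, v} ∈ bd K → ρ' u v = ρ u v

/-- Module PI1: if all flat labellings are trivial, then so are all homomorphisms on the fundamental group of the
realization -/
def S_PI1 : Prop := ∀ (n : ℕ) (D : Finset (Finset (Fin n))), IsCx D → EConn D → ∀ (H : Type) [Group H],
  (∀ ρ : Fin n → Fin n → H, Flat D ρ → Triv D ρ) →
  ∀ (x : realization D) (φ : FundamentalGroup (realization D) x →* H), φ = 1

end Pool.Agent.L0h44.LC
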