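import Mathlib
import Pool.Agent.L0h44.LC.Stm
import Pool.Agent.Y364.E3.Core

set_option autoImplicit false

/-!
# Project LC, module COL
-/

namespace Pool.Agent.L0h44.LC

open Finset Pool.Agent.H933R3 Pool.Agent.Y364.NL Pool.Agent.Y364.E3

variable {V : Type} [DecidableEq V] {K : Finset (Finset V)}

/-- the part of `GoodRs` that is proved by induction over the construction -/
def Pre (K 𝓕 G Rs : Finset (Finset V)) : Prop :=
  (∀ A ∈ Rs, A ∈ K ∧ A.card = 3 ∧ ∀ S ∈ K, S.card = 4 → A ⊆ S → S ∈ G) ∧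
  G.card + 1 = 𝓕.card + Rs.card ∧
  ∀ (H : Type) [Group H] (ρ : V → V → H), (∀ u, ρ u u = 1) → (∀ u v, ρ v u = (ρ u v)⁻¹) →
    (∀ u v w : V, ({u, v, w} : Finset V) ∈ K → ({u, v, w} : Finset V).card = 3 → ({u, v, w} : Finset V) ∉ Rs →
      ρ u v * ρ v w = ρ u w) →
    ∀ u v w : V, ({u, v, w} : Finset V) ∈ K → ({u, v, w} : Finset V).card = 3 → ρ u v * ρ v w = ρ u w

theorem tetra {H : Type} [Group H] {ρ : V → V → H} (h2 : ∀ u v, ρ v u = (ρ u v)⁻¹) {u v w x : V}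
    (ha : ρ u x * ρ x v = ρ u v) (hb : ρ v x * ρ x w = ρ v w) (hc : ρ u x * ρ x w = ρ u w) :
    ρ u v * ρ v w = ρ u w := by
  rw [← ha, ← hb, ← hc, h2 x v]
  group

theorem pre_glue (hK : IsCx K) {𝓕 G Rs : Finset (Finset V)} {A R : Finset V} (hP : Pre K 𝓕 G Rs)
    (hRK : R ∈ K) (hR : R.card = 4) (hA : A.card = 3) (hAR : A ⊆ R) (hRG : R ∉ G)
    (hcl : ∀ S ∈ K, S.card = 4 → A ⊆ S → S = R ∨ S ∈ G) : Pre K 𝓕 (insert R G) (insert A Rs) := by
  obtain ⟨h1, h2, h3⟩ := hP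
  have hAK : A ∈ K := hK.2 _ hRK _ hAR
  have hARs : A ∉ Rs := fun h => hRG ((h1 A h).2.2 R hRK hR hAR)
  refine ⟨?_, ?_, ?_⟩
  · intro B hB
    rcases mem_insert.1 hB with rfl | hB
    · refine ⟨hAK, hA, fun S hS hS4 hBS => ?_⟩
      rcases hcl S hS hS4 hBS with rfl | h
      · exact mem_insert_self _ _
      · exact mem_insert_of_mem h
    · exact ⟨(h1 B hB).1, (h1 B hB).2.1, fun S hS hS4 hBS => mem_insert_of_mem ((h1 B hB).2.2 S hS hS4 hBS)⟩
  · rw [card_insert_of_notMem hRG, card_insert_of_notMem hARs]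
    omega
  · intro H _ ρ hρ1 hρ2 hfl
    apply h3 H ρ hρ1 hρ2
    intro u v w huvw hc hn
    by_cases hAe : ({u, v, w} : Finset V) = A
    · -- the triangle of the gluing
      have hx : ∃ x, x ∈ R ∧ x ∉ A := by
        by_contra hcon
        push Not at hcon
        have := card_le_card (show R ⊆ A from fun y hy => hcon y hy)
        omega
      obtain ⟨x, hxR, hxA⟩ := hx
      rw [← hAe] at hxA hAR
      have hu : u ∈ R := hAR (by simp)
      have hv : v ∈ R := hAR (by simp)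
      have hw : w ∈ R := hAR (by simp)
      have hxu : x ≠ u := fun e => hxA (by rw [e]; simp)
      have hxv : x ≠ v := fun e => hxA (by rw [e]; simp)
      have hxw : x ≠ w := fun e => hxA (by rw [e]; simp)
      have huv : u ≠ v := by
        rintro rfl
        rw [insert_eq_self.2 (by simp : u ∈ ({u, w} : Finset V))] at hc
        have := card_le_two (a := u) (b := w)
        omega
      have hvw : v ≠ w := by
        rintro rfl
        rw [show ({u, v, v} : Finset V) = {u, v} by simp] at hc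
        have := card_le_two (a := u) (b := v)
        omega
      have huw : u ≠ w := by
        rintro rfl
        rw [insert_eq_self.2 (by simp : u ∈ ({v, u} : Finset V))] at hc
        have := card_le_two (a := v) (b := u)
        omega
      have key : ∀ a b : V, a ∈ R → b ∈ R → a ≠ b → x ≠ a → x ≠ b → ρ a x * ρ x b = ρ a b := by
        intro a b ha hb hab hxa hxb
        have hsub : ({a, x, b} : Finset V) ⊆ R := by
          intro y hy
          simp only [mem_insert, mem_singleton] at hy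
          rcases hy with rfl | rfl | rfl <;> assumption
        have hc3 : ({a, x, b} : Finset V).card = 3 := by
          rw [card_eq_three]
          exact ⟨a, x, b, hxa.symm, hab, hxb, rfl⟩
        refine hfl a x b (hK.2 _ hRK _ hsub) hc3 ?_
        intro hmem
        rcases mem_insert.1 hmem with h | h
        · apply hxA
          rw [hAe, ← h]
          simp
        · exact hRG ((h1 _ h).2.2 R hRK hR hsub)
      exact tetra hρ2 (key u v hu hv huv hxu hxv) (key v w hv hw hvw hxv hxw) (key u w hu hw huw hxu hxw)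
    · exact hfl u v w huvw hc (fun h => by
        rcases mem_insert.1 h with h | h
        · exact hAe h
        · exact hn h)

theorem exists_pre (hR : S_RDG) (hK : IsCx K) (hp : ∀ F, IsFacet K F → F.card = 5) (htwo : AtMostTwo 4 K)
    (hstar : ∀ A ∈ K, ∀ X Y, IsFacet K X → IsFacet K Y → A ⊆ X → A ⊆ Y → Relation.ReflTransGen
      (fun X Y => IsFacet K X ∧ IsFacet K Y ∧ ∃ S ∈ K, S.card = 4 ∧ A ⊆ S ∧ S ⊆ X ∧ S ⊆ Y) X Y)
    {𝓕 G : Finset (Finset V)} (h : LCStage 4 K 𝓕 G) : ∃ Rs, Pre K 𝓕 G Rs := by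
  induction h with
  | start F hF =>
    refine ⟨∅, fun A hA => absurd hA (notMem_empty A), by simp, ?_⟩
    intro H _ ρ h1 h2 h3 u v w h4 h5
    exact h3 u v w h4 h5 (notMem_empty _)
  | attach 𝓕 G F F' R h hF hF' hn hR h1 h2 hG ih =>
    obtain ⟨Rs, h3, h4, h5⟩ := ih
    refine ⟨Rs, fun A hA => ⟨(h3 A hA).1, (h3 A hA).2.1, fun S hS hS4 hAS =>
      mem_insert_of_mem ((h3 A hA).2.2 S hS hS4 hAS)⟩, ?_, h5⟩
    rw [card_insert_of_notMem hG, card_insert_of_notMem hn]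
    omega
  | glue 𝓕 G F F' R A h hF hF' hne hR4 h1 h2 hG hA hAR hs ih =>
    obtain ⟨Rs, hP⟩ := ih
    obtain ⟨b1, b2, -⟩ := stage_basic h
    have hA3 : A.card = 3 := by omega
    have hRK : R ∈ K := hK.2 _ (b1 F hF).1 _ h1
    have hAK : A ∈ K := hK.2 _ hRK _ hAR
    refine ⟨insert A Rs, pre_glue hK hP hRK hR4 hA3 hAR hG ?_⟩
    exact hR V K 𝓕 G A R F F' hK hp htwo (hstar A hAK) b1 b2 hA3 hAR hR4 hG hF hF' hne h1 h2 hs

theorem facet_of_five (hK : IsCx K) (hp : ∀ F, IsFacet K F → F.card = 5) {F : Finset V} (hF : F ∈ K)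
    (h5 : F.card = 5) : IsFacet K F := by
  refine ⟨hF, fun G hG hFG => ?_⟩
  obtain ⟨X, hX, hGX⟩ := Pool.Agent.Y364.E3.exists_facet hG
  have h1 := hp X hX
  have h2 := card_le_card hGX
  exact (eq_of_subset_of_card_le hFG (by omega)).symm

theorem goodRs_of_pre (hK : IsCx K) (hp : ∀ F, IsFacet K F → F.card = 5) {𝓕 G Rs : Finset (Finset V)}
    (b1 : ∀ F ∈ 𝓕, IsFacet K F) (b2 : ∀ R ∈ G, R.card = 4 ∧ ∃ X ∈ 𝓕, ∃ Y ∈ 𝓕, X ≠ Y ∧ R ⊆ X ∧ R ⊆ Y)
    (hall : ∀ F, IsFacet K F → F ∈ 𝓕)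
    (hconn : ∀ A ∈ K, ∀ F ∈ 𝓕, ∀ F' ∈ 𝓕, A ⊆ F → A ⊆ F' → SameFace 𝓕 G A F F') (hP : Pre K 𝓕 G Rs) :
    GoodRs K Rs ∧ (K \ bd K).filter (fun σ => σ.card = 4) = G := by
  obtain ⟨h1, h2, h3⟩ := hP
  have hF5 : K.filter (fun σ => σ.card = 5) = 𝓕 := by
    ext F
    rw [mem_filter]
    constructor
    · rintro ⟨h4, h5⟩
      exact hall F (facet_of_five hK hp h4 h5)
    · intro h4
      exact ⟨(b1 F h4).1, hp F (b1 F h4)⟩
  -- a glued tetrahedron does not lie in exactly one facet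
  have hG2 : ∀ R ∈ G, (K.filter (fun F => F.card = 5 ∧ R ⊆ F)).card ≠ 1 := by
    intro R hRG h4
    obtain ⟨-, X, hX, Y, hY, hne, h5, h6⟩ := b2 R hRG
    obtain ⟨Z, hZ⟩ := card_eq_one.1 h4
    have hX' : X ∈ K.filter (fun F => F.card = 5 ∧ R ⊆ F) := mem_filter.2 ⟨(b1 X hX).1, hp X (b1 X hX), h5⟩
    have hY' : Y ∈ K.filter (fun F => F.card = 5 ∧ R ⊆ F) := mem_filter.2 ⟨(b1 Y hY).1, hp Y (b1 Y hY), h6⟩
    rw [hZ, mem_singleton] at hX' hY'
    exact hne (hX'.trans hY'.symm)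
  have hG4 : (K \ bd K).filter (fun σ => σ.card = 4) = G := by
    ext S
    rw [mem_filter, mem_sdiff]
    constructor
    · rintro ⟨⟨hSK, hSb⟩, hS4⟩
      obtain ⟨X, hX, hSX⟩ := Pool.Agent.Y364.E3.exists_facet hSK
      have hX' : X ∈ K.filter (fun F => F.card = 5 ∧ S ⊆ F) := mem_filter.2 ⟨hX.1, hp X hX, hSX⟩
      have hn1 : (K.filter (fun F => F.card = 5 ∧ S ⊆ F)).card ≠ 1 := by
        intro h4
        exact hSb (mem_filter.2 ⟨hSK, S, hSK, hS4, Subset.refl _, h4⟩)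
      have hpos : 0 < (K.filter (fun F => F.card = 5 ∧ S ⊆ F)).card := card_pos.2 ⟨X, hX'⟩
      have h2' : 1 < (K.filter (fun F => F.card = 5 ∧ S ⊆ F)).card := by omega
      obtain ⟨Y, hY, hYX⟩ := exists_mem_ne h2' X
      rw [mem_filter] at hY
      have hYf := facet_of_five hK hp hY.1 hY.2.1
      have hs := hconn S hSK X (hall X hX) Y (hall Y hYf) hSX hY.2.2
      obtain ⟨P, Q, ⟨-, -, R, hRG, h5, -, -⟩, -, -⟩ := first_step (P := fun Z => Z = X) hs rfl hYX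
      have := (b2 R hRG).1
      have hSR : S = R := eq_of_subset_of_card_le h5 (by omega)
      rw [hSR]; exact hRG
    · intro hSG
      obtain ⟨hS4, X, hX, Y, hY, hne, h5, h6⟩ := b2 S hSG
      have hSK : S ∈ K := hK.2 _ (b1 X hX).1 _ h5
      refine ⟨⟨hSK, fun hb => ?_⟩, hS4⟩
      obtain ⟨-, R, hRK, hR4, hSR, hc⟩ := mem_filter.1 hb
      have hSR' : S = R := eq_of_subset_of_card_le hSR (by omega)
      exact hG2 S hSG (by rw [hSR']; exact hc)
  refine ⟨⟨fun A hA => ⟨(h1 A hA).1, (h1 A hA).2.1, fun hb => ?_⟩, ?_, ?_⟩, hG4⟩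
  · obtain ⟨-, R, hRK, hR4, hAR, hc⟩ := mem_filter.1 hb
    exact hG2 R ((h1 A hA).2.2 R hRK hR4 hAR) hc
  · rw [hF5, hG4]
    exact h2
  · intro H _ ρ hρ1 hρ2 hfl u v w huvw
    by_cases huv : u = v
    · subst huv; rw [hρ1, one_mul]
    by_cases hvw : v = w
    · subst hvw; rw [hρ1, mul_one]
    by_cases huw : u = w
    · subst huw; rw [hρ1, hρ2 u v, mul_inv_cancel]
    exact h3 H ρ hρ1 hρ2 hfl u v w huvw (card_eq_three.2 ⟨u, v, w, huv, huw, hvw, rfl⟩)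

theorem t_COL (hR : S_RDG) : S_COL := by
  intro V _ K hK hLC
  obtain ⟨hp, htwo, 𝓕, G, hst, hall, hconn⟩ := hLC
  obtain ⟨b1, b2, -⟩ := stage_basic hst
  have hstar : ∀ A ∈ K, ∀ X Y, IsFacet K X → IsFacet K Y → A ⊆ X → A ⊆ Y → Relation.ReflTransGen
      (fun X Y => IsFacet K X ∧ IsFacet K Y ∧ ∃ S ∈ K, S.card = 4 ∧ A ⊆ S ∧ S ⊆ X ∧ S ⊆ Y) X Y := by
    intro A hA X Y hX hY hAX hAY
    refine Relation.ReflTransGen.mono ?_ _ _ (hconn A hA X (hall X hX) Y (hall Y hY) hAX hAY)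
    rintro X' Y' ⟨hX', hY', R, hR', h1, h2, h3⟩
    exact ⟨b1 X' hX', b1 Y' hY', R, hK.2 _ (b1 X' hX').1 _ h2, (b2 R hR').1, h1, h2, h3⟩
  obtain ⟨Rs, hP⟩ := exists_pre hR hK hp htwo hstar hst
  exact ⟨Rs, (goodRs_of_pre hK hp b1 b2 hall hconn hP).1⟩

end Pool.Agent.L0h44.LC
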