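import Pool.Agent.L0h44.LC.Stm2
import Pool.Agent.L0h44.LC.COL
import Pool.Agent.Y364.E3.Dim

/-!
# Project LC, module BD2: points with a Euclidean neighbourhood
-/

set_option autoImplicit false

namespace Pool.Agent.L0h44.LC

open Finset Pool.Agent.H933R3 Topology Pool.Agent.Y364.E3

variable {n : ℕ} {K : Finset (Finset (Fin n))}

/-- a chart given by two maps -/
theorem not_bd_of_maps (q : realization K) (O : Set (Fin n → ℝ)) (hO : IsOpen O) (hq : q.1 ∈ O)
    (W : Set (EuclideanSpace ℝ (Fin 4))) (hW : IsOpen W)
    (f : (Fin n → ℝ) → EuclideanSpace ℝ (Fin 4)) (g : EuclideanSpace ℝ (Fin 4) → (Fin n → ℝ))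
    (hf : Continuous f) (hg : Continuous g)
    (h1 : ∀ x ∈ realization K, x ∈ O → f x ∈ W ∧ g (f x) = x)
    (h2 : ∀ y ∈ W, g y ∈ realization K ∧ g y ∈ O ∧ f (g y) = y) :
    q ∉ TopBd (realization K) := by
  intro hbd
  apply hbd
  refine ⟨{x | x.1 ∈ O}, hO.preimage continuous_subtype_val, hq, W, hW, ⟨?_⟩⟩
  exact
    { toFun := fun x => ⟨f x.1.1, (h1 x.1.1 x.1.2 x.2).1⟩
      invFun := fun y => ⟨⟨g y.1, (h2 y.1 y.2).1⟩, (h2 y.1 y.2).2.1⟩
      left_inv := by
        intro x
        apply Subtype.ext
        apply Subtype.ext
        exact (h1 x.1.1 x.1.2 x.2).2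
      right_inv := by
        intro y
        apply Subtype.ext
        exact (h2 y.1 y.2).2.2
      continuous_toFun := by
        refine Continuous.subtype_mk ?_ _
        exact hf.comp (continuous_subtype_val.comp continuous_subtype_val)
      continuous_invFun := by
        refine Continuous.subtype_mk ?_ _
        refine Continuous.subtype_mk ?_ _
        exact hg.comp continuous_subtype_val }

/-- a point with support in the range of `vs` -/
theorem pt_eq {m : ℕ} {vs : Fin m → Fin n} (hv : Function.Injective vs) {x : Fin n → ℝ}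
    (hx : ∀ i, x i ≠ 0 → ∃ k, vs k = i) : pt vs (fun k => x (vs k)) = x := by
  funext i
  by_cases h : ∃ k, vs k = i
  · obtain ⟨k, rfl⟩ := h
    exact pt_apply hv k
  · have h1 : x i = 0 := by
      by_contra hn
      exact h (hx i hn)
    rw [h1]
    by_contra hn
    obtain ⟨k, hk, -⟩ := pt_supp (mem_supp.2 hn)
    exact h ⟨k, hk⟩

theorem t_BD2 : S_BD2 := by
  classical
  intro n K hK hp R hR hcase q hq
  set O : Set (Fin n → ℝ) := {x | ∀ i ∈ R, 0 < x i} with hOdef
  have hO : IsOpen O := by
    have : O = ⋂ i ∈ R, {x : Fin n → ℝ | 0 < x i} := by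
      ext x
      simp [hOdef]
    rw [this]
    exact isOpen_biInter_finset fun i _ => isOpen_lt continuous_const (continuous_apply i)
  have hqO : q.1 ∈ O := fun i hi => lt_of_le_of_ne (q.2.1 i) (Ne.symm ((hq i).1 hi))
  have hsub : ∀ x ∈ realization K, x ∈ O → R ⊆ supp x := fun x _ hx i hi =>
    mem_supp.2 (hx i hi).ne'
  rcases hcase with h5 | ⟨h4, h2⟩
  · -- a 4-simplex
    set vs : Fin 5 → Fin n := fun k => R.orderEmbOfFin h5 k with hvs
    have hv : Function.Injective vs := (R.orderEmbOfFin h5).injective
    have hrange : ∀ i, i ∈ R ↔ ∃ k, vs k = i := by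
      intro i
      have := R.range_orderEmbOfFin h5
      have h := Set.ext_iff.1 this i
      rw [Set.mem_range, Finset.mem_coe] at h
      exact h.symm
    have hvR : ∀ k, vs k ∈ R := fun k => (hrange _).2 ⟨k, rfl⟩
    refine not_bd_of_maps q O hO hqO
      {y | 0 < y 0 ∧ 0 < y 1 ∧ 0 < y 2 ∧ 0 < y 3 ∧ y 0 + y 1 + y 2 + y 3 < 1} ?_
      (fun x => WithLp.toLp 2 ![x (vs 0), x (vs 1), x (vs 2), x (vs 3)])
      (fun y => pt vs ![y 0, y 1, y 2, y 3, 1 - y 0 - y 1 - y 2 - y 3]) ?_ ?_ ?_ ?_
    · refine IsOpen.and (isOpen_lt continuous_const (by fun_prop)) ?_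
      refine IsOpen.and (isOpen_lt continuous_const (by fun_prop)) ?_
      refine IsOpen.and (isOpen_lt continuous_const (by fun_prop)) ?_
      refine IsOpen.and (isOpen_lt continuous_const (by fun_prop)) ?_
      exact isOpen_lt (by fun_prop) continuous_const
    · refine (PiLp.continuous_toLp 2 _).comp ?_
      refine continuous_pi fun i => ?_
      fin_cases i
      · exact continuous_apply _
      · exact continuous_apply _
      · exact continuous_apply _
      · exact continuous_apply _
    · refine pt_cont (vs := vs) (G := fun y : EuclideanSpace ℝ (Fin 4) =>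
        ![y 0, y 1, y 2, y 3, 1 - y 0 - y 1 - y 2 - y 3]) ?_
      refine continuous_pi fun i => ?_
      fin_cases i
      · show Continuous fun y : EuclideanSpace ℝ (Fin 4) => y 0
        fun_prop
      · show Continuous fun y : EuclideanSpace ℝ (Fin 4) => y 1
        fun_prop
      · show Continuous fun y : EuclideanSpace ℝ (Fin 4) => y 2
        fun_prop
      · show Continuous fun y : EuclideanSpace ℝ (Fin 4) => y 3
        fun_prop
      · show Continuous fun y : EuclideanSpace ℝ (Fin 4) => 1 - y 0 - y 1 - y 2 - y 3
        fun_prop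
    · intro x hx hxO
      have hs : supp x = R := by
        obtain ⟨F, hF, hsF⟩ := exists_facet (supp_mem hK hx)
        have h1 : R ⊆ F := (hsub x hx hxO).trans hsF
        have h3 : F = R := (eq_of_subset_of_card_le h1 (by rw [hp F hF, h5])).symm
        exact Subset.antisymm (h3 ▸ hsF) (hsub x hx hxO)
      have hpt : pt vs (fun k => x (vs k)) = x :=
        pt_eq hv fun i hi => (hrange i).1 (hs ▸ mem_supp.2 hi)
      have hsum : ∑ k, x (vs k) = 1 := by
        rw [← pt_sum (vs := vs) (g := fun k => x (vs k)), hpt]
        exact hx.2.1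
      rw [Fin.sum_univ_five] at hsum
      have p : ∀ k, 0 < x (vs k) := fun k => hxO _ (hvR k)
      refine ⟨⟨p 0, p 1, p 2, p 3, ?_⟩, ?_⟩
      · show x (vs 0) + x (vs 1) + x (vs 2) + x (vs 3) < 1
        have := p 4
        linarith
      · show pt vs ![x (vs 0), x (vs 1), x (vs 2), x (vs 3),
          1 - x (vs 0) - x (vs 1) - x (vs 2) - x (vs 3)] = x
        conv_rhs => rw [← hpt]
        congr 1
        funext k
        fin_cases k
        · rfl
        · rfl
        · rfl
        · rfl
        · show 1 - x (vs 0) - x (vs 1) - x (vs 2) - x (vs 3) = x (vs 4)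
          linarith
    · rintro y ⟨y0, y1, y2, y3, y4⟩
      have hg0 : ∀ k, 0 < (![y 0, y 1, y 2, y 3, 1 - y 0 - y 1 - y 2 - y 3] : Fin 5 → ℝ) k := by
        intro k
        fin_cases k
        · exact y0
        · exact y1
        · exact y2
        · exact y3
        · show 0 < 1 - y 0 - y 1 - y 2 - y 3
          linarith
      refine ⟨mem_real hR (pt_nonneg fun k => (hg0 k).le) ?_ ?_, ?_, ?_⟩
      · rw [pt_sum, Fin.sum_univ_five]
        show y 0 + y 1 + y 2 + y 3 + (1 - y 0 - y 1 - y 2 - y 3) = 1
        ring
      · intro i hi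
        obtain ⟨k, hk, -⟩ := pt_supp hi
        rw [← hk]
        exact hvR k
      · intro i hi
        obtain ⟨k, rfl⟩ := (hrange i).1 hi
        rw [pt_apply hv]
        exact hg0 k
      · ext k
        fin_cases k
        · exact pt_apply hv 0
        · exact pt_apply hv 1
        · exact pt_apply hv 2
        · exact pt_apply hv 3
  · -- a tetrahedron in two 4-simplices
    obtain ⟨F1, F2, hne, hF⟩ := card_eq_two.1 h2
    have m1 : F1 ∈ K.filter (fun F => F.card = 5 ∧ R ⊆ F) := by rw [hF]; simp
    have m2 : F2 ∈ K.filter (fun F => F.card = 5 ∧ R ⊆ F) := by rw [hF]; simp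
    rw [mem_filter] at m1 m2
    obtain ⟨k1, c1, s1⟩ := m1
    obtain ⟨k2, c2, s2⟩ := m2
    obtain ⟨a, ha⟩ : ∃ a, F1 \ R = {a} := by
      rw [← card_eq_one, card_sdiff_of_subset s1, c1, h4]
    obtain ⟨b, hb⟩ : ∃ b, F2 \ R = {b} := by
      rw [← card_eq_one, card_sdiff_of_subset s2, c2, h4]
    have f1 : F1 = insert a R := by
      rw [← sdiff_union_of_subset s1, ha]
      rfl
    have f2 : F2 = insert b R := by
      rw [← sdiff_union_of_subset s2, hb]
      rfl
    have haR : a ∉ R := by
      have : a ∈ F1 \ R := by rw [ha]; simp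
      exact (mem_sdiff.1 this).2
    have hbR : b ∉ R := by
      have : b ∈ F2 \ R := by rw [hb]; simp
      exact (mem_sdiff.1 this).2
    have hab : a ≠ b := by
      rintro rfl
      exact hne (f1.trans f2.symm)
    set rs : Fin 4 → Fin n := fun k => R.orderEmbOfFin h4 k with hrs
    have hr : Function.Injective rs := (R.orderEmbOfFin h4).injective
    have hrange : ∀ i, i ∈ R ↔ ∃ k, rs k = i := by
      intro i
      have := R.range_orderEmbOfFin h4
      have h := Set.ext_iff.1 this i
      rw [Set.mem_range, Finset.mem_coe] at h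
      exact h.symm
    have hrR : ∀ k, rs k ∈ R := fun k => (hrange _).2 ⟨k, rfl⟩
    set vs : Fin 6 → Fin n := ![rs 0, rs 1, rs 2, rs 3, a, b] with hvs
    have hra : ∀ k, rs k ≠ a := fun k h => haR (h ▸ hrR k)
    have hrb : ∀ k, rs k ≠ b := fun k h => hbR (h ▸ hrR k)
    have hv : Function.Injective vs := by
      intro k l hkl
      have n01 : rs 0 ≠ rs 1 := fun h => absurd (hr h) (by decide)
      have n02 : rs 0 ≠ rs 2 := fun h => absurd (hr h) (by decide)
      have n03 : rs 0 ≠ rs 3 := fun h => absurd (hr h) (by decide)
      have n12 : rs 1 ≠ rs 2 := fun h => absurd (hr h) (by decide)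
      have n13 : rs 1 ≠ rs 3 := fun h => absurd (hr h) (by decide)
      have n23 : rs 2 ≠ rs 3 := fun h => absurd (hr h) (by decide)
      fin_cases k <;> fin_cases l <;> first
        | rfl
        | (exfalso; revert hkl; simp [hvs, n01, n02, n03, n12, n13, n23, n01.symm, n02.symm,
            n03.symm, n12.symm, n13.symm, n23.symm, hra, hrb, hab, hab.symm, (hra _).symm,
            (hrb _).symm])
    have hvrange : ∀ i, (i ∈ R ∨ i = a ∨ i = b) → ∃ k, vs k = i := by
      rintro i (h | rfl | rfl)
      · obtain ⟨k, rfl⟩ := (hrange i).1 h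
        fin_cases k
        · exact ⟨0, rfl⟩
        · exact ⟨1, rfl⟩
        · exact ⟨2, rfl⟩
        · exact ⟨3, rfl⟩
      · exact ⟨4, rfl⟩
      · exact ⟨5, rfl⟩
    refine not_bd_of_maps q O hO hqO
      {y | 0 < y 0 ∧ 0 < y 1 ∧ 0 < y 2 ∧ y 0 + y 1 + y 2 + |y 3| < 1} ?_
      (fun x => WithLp.toLp 2 ![x (rs 0), x (rs 1), x (rs 2), x a - x b])
      (fun y => pt vs ![y 0, y 1, y 2, 1 - y 0 - y 1 - y 2 - |y 3|, max (y 3) 0, max (-y 3) 0])
      ?_ ?_ ?_ ?_
    · refine IsOpen.and (isOpen_lt continuous_const (by fun_prop)) ?_
      refine IsOpen.and (isOpen_lt continuous_const (by fun_prop)) ?_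
      refine IsOpen.and (isOpen_lt continuous_const (by fun_prop)) ?_
      exact isOpen_lt (by fun_prop) continuous_const
    · refine (PiLp.continuous_toLp 2 _).comp ?_
      refine continuous_pi fun i => ?_
      fin_cases i
      · exact continuous_apply _
      · exact continuous_apply _
      · exact continuous_apply _
      · exact (continuous_apply a).sub (continuous_apply b)
    · refine pt_cont (vs := vs) (G := fun y : EuclideanSpace ℝ (Fin 4) =>
        ![y 0, y 1, y 2, 1 - y 0 - y 1 - y 2 - |y 3|, max (y 3) 0, max (-y 3) 0]) ?_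
      refine continuous_pi fun i => ?_
      fin_cases i
      · show Continuous fun y : EuclideanSpace ℝ (Fin 4) => y 0
        fun_prop
      · show Continuous fun y : EuclideanSpace ℝ (Fin 4) => y 1
        fun_prop
      · show Continuous fun y : EuclideanSpace ℝ (Fin 4) => y 2
        fun_prop
      · show Continuous fun y : EuclideanSpace ℝ (Fin 4) => 1 - y 0 - y 1 - y 2 - |y 3|
        fun_prop
      · show Continuous fun y : EuclideanSpace ℝ (Fin 4) => max (y 3) 0
        fun_prop
      · show Continuous fun y : EuclideanSpace ℝ (Fin 4) => max (-y 3) 0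
        fun_prop
    · intro x hx hxO
      obtain ⟨F, hFF, hsF⟩ := exists_facet (supp_mem hK hx)
      have hRF : R ⊆ F := (hsub x hx hxO).trans hsF
      have hF12 : F = F1 ∨ F = F2 := by
        have : F ∈ K.filter (fun F => F.card = 5 ∧ R ⊆ F) :=
          mem_filter.2 ⟨hFF.1, hp F hFF, hRF⟩
        rw [hF] at this
        simpa using this
      have h0 : ∀ i, x i ≠ 0 → i ∈ F := fun i hi => hsF (mem_supp.2 hi)
      have hpt : pt vs (fun k => x (vs k)) = x := by
        refine pt_eq hv fun i hi => hvrange i ?_
        have h := h0 i hi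
        rcases hF12 with h' | h'
        · rw [h', f1, mem_insert] at h
          tauto
        · rw [h', f2, mem_insert] at h
          tauto
      have hsum : ∑ k, x (vs k) = 1 := by
        rw [← pt_sum (vs := vs) (g := fun k => x (vs k)), hpt]
        exact hx.2.1
      rw [Fin.sum_univ_six] at hsum
      have hsum' : x (rs 0) + x (rs 1) + x (rs 2) + x (rs 3) + x a + x b = 1 := hsum
      have p : ∀ k, 0 < x (rs k) := fun k => hxO _ (hrR k)
      have hxa := hx.1 a
      have hxb := hx.1 b
      have hz : x a = 0 ∨ x b = 0 := by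
        rcases hF12 with h' | h'
        · right
          by_contra hn
          have h := h0 b hn
          rw [h', f1, mem_insert] at h
          rcases h with h | h
          · exact hab h.symm
          · exact hbR h
        · left
          by_contra hn
          have h := h0 a hn
          rw [h', f2, mem_insert] at h
          rcases h with h | h
          · exact hab h
          · exact haR h
      have habs : |x a - x b| = x a + x b := by
        rcases hz with h | h
        · rw [h, zero_sub, abs_neg, abs_of_nonneg hxb, zero_add]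
        · rw [h, sub_zero, abs_of_nonneg hxa, add_zero]
      have hma : max (x a - x b) 0 = x a := by
        rcases hz with h | h
        · rw [h]
          exact max_eq_right (by linarith)
        · rw [h, sub_zero]
          exact max_eq_left hxa
      have hmb : max (-(x a - x b)) 0 = x b := by
        rcases hz with h | h
        · rw [h, zero_sub, neg_neg]
          exact max_eq_left hxb
        · rw [h, sub_zero]
          exact max_eq_right (by linarith)
      refine ⟨⟨p 0, p 1, p 2, ?_⟩, ?_⟩
      · show x (rs 0) + x (rs 1) + x (rs 2) + |x a - x b| < 1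
        have := p 3
        linarith
      · show pt vs ![x (rs 0), x (rs 1), x (rs 2),
          1 - x (rs 0) - x (rs 1) - x (rs 2) - |x a - x b|, max (x a - x b) 0,
          max (-(x a - x b)) 0] = x
        conv_rhs => rw [← hpt]
        congr 1
        funext k
        fin_cases k
        · rfl
        · rfl
        · rfl
        · show 1 - x (rs 0) - x (rs 1) - x (rs 2) - |x a - x b| = x (rs 3)
          linarith
        · exact hma
        · exact hmb
    · rintro y ⟨y0, y1, y2, y4⟩
      have hg0 : ∀ k, 0 ≤ (![y 0, y 1, y 2, 1 - y 0 - y 1 - y 2 - |y 3|, max (y 3) 0,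
          max (-y 3) 0] : Fin 6 → ℝ) k := by
        intro k
        fin_cases k
        · exact y0.le
        · exact y1.le
        · exact y2.le
        · show 0 ≤ 1 - y 0 - y 1 - y 2 - |y 3|
          linarith
        · exact le_max_right _ _
        · exact le_max_right _ _
      have hsum1 : ∑ i, pt vs ![y 0, y 1, y 2, 1 - y 0 - y 1 - y 2 - |y 3|, max (y 3) 0,
          max (-y 3) 0] i = 1 := by
        rw [pt_sum, Fin.sum_univ_six]
        show y 0 + y 1 + y 2 + (1 - y 0 - y 1 - y 2 - |y 3|) + max (y 3) 0 + max (-y 3) 0 = 1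
        have : max (y 3) 0 + max (-y 3) 0 = |y 3| := by
          rcases le_total 0 (y 3) with h | h
          · rw [max_eq_left h, max_eq_right (by linarith), abs_of_nonneg h, add_zero]
          · rw [max_eq_right h, max_eq_left (by linarith), abs_of_nonpos h, zero_add]
        linarith
      refine ⟨?_, ?_, ?_⟩
      · rcases le_total 0 (y 3) with h | h
        · refine mem_real k1 (pt_nonneg hg0) hsum1 ?_
          intro i hi
          obtain ⟨k, hk, hk0⟩ := pt_supp hi
          rw [f1, mem_insert]
          fin_cases k
          · right; rw [← hk]; exact hrR 0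
          · right; rw [← hk]; exact hrR 1
          · right; rw [← hk]; exact hrR 2
          · right; rw [← hk]; exact hrR 3
          · left; exact hk.symm
          · exact absurd (max_eq_right (by linarith : -y 3 ≤ 0)) hk0
        · refine mem_real k2 (pt_nonneg hg0) hsum1 ?_
          intro i hi
          obtain ⟨k, hk, hk0⟩ := pt_supp hi
          rw [f2, mem_insert]
          fin_cases k
          · right; rw [← hk]; exact hrR 0
          · right; rw [← hk]; exact hrR 1
          · right; rw [← hk]; exact hrR 2
          · right; rw [← hk]; exact hrR 3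
          · exact absurd (max_eq_right h) hk0
          · left; exact hk.symm
      · intro i hi
        obtain ⟨k, rfl⟩ := (hrange i).1 hi
        fin_cases k
        · show 0 < pt vs _ (vs 0)
          rw [pt_apply hv]
          exact y0
        · show 0 < pt vs _ (vs 1)
          rw [pt_apply hv]
          exact y1
        · show 0 < pt vs _ (vs 2)
          rw [pt_apply hv]
          exact y2
        · show 0 < pt vs _ (vs 3)
          rw [pt_apply hv]
          show 0 < 1 - y 0 - y 1 - y 2 - |y 3|
          linarith
      · ext k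
        fin_cases k
        · exact pt_apply hv 0
        · exact pt_apply hv 1
        · exact pt_apply hv 2
        · show pt vs _ (vs 4) - pt vs _ (vs 5) = y 3
          rw [pt_apply hv, pt_apply hv]
          show max (y 3) 0 - max (-y 3) 0 = y 3
          rcases le_total 0 (y 3) with h | h
          · rw [max_eq_left h, max_eq_right (by linarith), sub_zero]
          · rw [max_eq_right h, max_eq_left (by linarith)]
            ring

end Pool.Agent.L0h44.LC
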