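import Mathlib
import Pool.Agent.L0h44.LC.COL

set_option autoImplicit false

/-!
# Project LC, module COL2: extension of cocycles mod 2
-/

namespace Pool.Agent.L0h44.LC

open Finset Pool.Agent.H933R3 Pool.Agent.Y364.NL Pool.Agent.Y364.E3

variable {V : Type} [DecidableEq V] {K : Finset (Finset V)}

/-- the sum of `z` over the triangles of `S` -/
def dl (z : Finset V → ZMod 2) (S : Finset V) : ZMod 2 := ∑ A ∈ S.powersetCard 3, z A

/-- cochains can be changed on `Rs` so that the sums over the tetrahedra in `L` vanish -/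
def Ext (Rs L : Finset (Finset V)) : Prop :=
  ∀ w : Finset V → ZMod 2, ∃ z : Finset V → ZMod 2, (∀ A, A ∉ Rs → z A = w A) ∧ ∀ S ∈ L, dl z S = 0

/-- functions supported on the tree tetrahedra with vanishing sums over the 4-simplices vanish -/
def TreeInj (𝓕 Tr : Finset (Finset V)) : Prop :=
  ∀ m : Finset V → ZMod 2, (∀ S, S ∉ Tr → m S = 0) → (∀ F ∈ 𝓕, ∑ S ∈ F.powersetCard 4, m S = 0) → ∀ S ∈ Tr, m S = 0

theorem ext_glue {𝓕 G Rs L : Finset (Finset V)} {A R : Finset V} (hP : Pre K 𝓕 G Rs) (hE : Ext Rs L)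
    (hRK : R ∈ K) (hR : R.card = 4) (hA : A.card = 3) (hAR : A ⊆ R) (hRG : R ∉ G) :
    Ext (insert A Rs) (insert R L) := by
  obtain ⟨h1, -, -⟩ := hP
  have hRs : ∀ B, B ⊆ R → B ∉ Rs := fun B hB h => hRG ((h1 B h).2.2 R hRK hR hB)
  intro w
  have hAm : A ∈ R.powersetCard 3 := mem_powersetCard.2 ⟨hAR, hA⟩
  obtain ⟨z, hz1, hz2⟩ := hE (Function.update w A (∑ B ∈ (R.powersetCard 3).erase A, w B))
  refine ⟨z, ?_, ?_⟩
  · intro B hB
    rw [mem_insert, not_or] at hB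
    rw [hz1 B hB.2, Function.update_of_ne hB.1]
  · intro S hS
    rcases mem_insert.1 hS with rfl | hS
    · unfold dl
      rw [← add_sum_erase _ _ hAm, hz1 A (hRs A hAR), Function.update_self]
      have h2 : ∑ x ∈ (S.powersetCard 3).erase A, z x = ∑ x ∈ (S.powersetCard 3).erase A, w x := by
        apply sum_congr rfl
        intro B hB
        rw [mem_erase, mem_powersetCard] at hB
        rw [hz1 B (hRs B hB.2.1), Function.update_of_ne hB.1]
      rw [h2]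
      exact CharTwo.add_self_eq_zero _
    · exact hz2 S hS

theorem tree_attach (htwo : AtMostTwo 4 K) {𝓕 G Tr : Finset (Finset V)} {F' R : Finset V}
    (b1 : ∀ F ∈ 𝓕, IsFacet K F) (b2 : ∀ R ∈ G, R.card = 4 ∧ ∃ X ∈ 𝓕, ∃ Y ∈ 𝓕, X ≠ Y ∧ R ⊆ X ∧ R ⊆ Y)
    (hTr : Tr ⊆ G) (hT : TreeInj 𝓕 Tr) (hF' : IsFacet K F') (hn : F' ∉ 𝓕) (hR : R.card = 4) (h2 : R ⊆ F') :
    TreeInj (insert F' 𝓕) (insert R Tr) := by
  intro m hm hs
  have hRm : R ∈ F'.powersetCard 4 := mem_powersetCard.2 ⟨h2, hR⟩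
  have hmR : m R = 0 := by
    have h3 := hs F' (mem_insert_self _ _)
    rw [← add_sum_erase _ _ hRm] at h3
    rw [sum_eq_zero, add_zero] at h3
    · exact h3
    · intro S hS
      rw [mem_erase, mem_powersetCard] at hS
      apply hm
      intro h4
      rcases mem_insert.1 h4 with h5 | h5
      · exact hS.1 h5
      · obtain ⟨hc, X, hX, Y, hY, hne, h6, h7⟩ := b2 S (hTr h5)
        rcases htwo S hc F' X Y hF' (b1 X hX) (b1 Y hY) hS.2.1 h6 h7 with e | e | e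
        · exact hn (e ▸ hX)
        · exact hn (e ▸ hY)
        · exact hne e
  have h8 := hT m (fun S hS => by
    by_cases h : S = R
    · rw [h, hmR]
    · exact hm S (fun h9 => by
        rcases mem_insert.1 h9 with h10 | h10
        · exact h h10
        · exact hS h10)) (fun F hF => hs F (mem_insert_of_mem hF))
  intro S hS
  rcases mem_insert.1 hS with rfl | hS
  · exact hmR
  · exact h8 S hS

theorem exists_pre2 (hR : S_RDG) (hK : IsCx K) (hp : ∀ F, IsFacet K F → F.card = 5) (htwo : AtMostTwo 4 K)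
    (hstar : ∀ A ∈ K, ∀ X Y, IsFacet K X → IsFacet K Y → A ⊆ X → A ⊆ Y → Relation.ReflTransGen
      (fun X Y => IsFacet K X ∧ IsFacet K Y ∧ ∃ S ∈ K, S.card = 4 ∧ A ⊆ S ∧ S ⊆ X ∧ S ⊆ Y) X Y)
    {𝓕 G : Finset (Finset V)} (h : LCStage 4 K 𝓕 G) :
    ∃ Rs Tr L, Pre K 𝓕 G Rs ∧ G = Tr ∪ L ∧ Ext Rs L ∧ TreeInj 𝓕 Tr := by
  induction h with
  | start F hF =>
    refine ⟨∅, ∅, ∅, ⟨fun A hA => absurd hA (notMem_empty A), by simp, ?_⟩, by simp, ?_, ?_⟩
    · intro H _ ρ h1 h2 h3 u v w h4 h5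
      exact h3 u v w h4 h5 (notMem_empty _)
    · intro w
      exact ⟨w, fun _ _ => rfl, fun S hS => absurd hS (notMem_empty _)⟩
    · intro m _ _ S hS
      exact absurd hS (notMem_empty _)
  | attach 𝓕 G F F' R h hF hF' hn hR4 h1 h2 hG ih =>
    obtain ⟨Rs, Tr, L, ⟨h3, h4, h5⟩, h6, h7, h8⟩ := ih
    obtain ⟨b1, b2, -⟩ := stage_basic h
    refine ⟨Rs, insert R Tr, L, ⟨fun A hA => ⟨(h3 A hA).1, (h3 A hA).2.1, fun S hS hS4 hAS =>
      mem_insert_of_mem ((h3 A hA).2.2 S hS hS4 hAS)⟩, ?_, h5⟩, ?_, h7,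
      tree_attach htwo b1 b2 (h6 ▸ subset_union_left) h8 hF' hn hR4 h2⟩
    · rw [card_insert_of_notMem hG, card_insert_of_notMem hn]
      omega
    · rw [h6, insert_union]
  | glue 𝓕 G F F' R A h hF hF' hne hR4 h1 h2 hG hA hAR hs ih =>
    obtain ⟨Rs, Tr, L, hP, h6, h7, h8⟩ := ih
    obtain ⟨b1, b2, -⟩ := stage_basic h
    have hA3 : A.card = 3 := by omega
    have hRK : R ∈ K := hK.2 _ (b1 F hF).1 _ h1
    have hAK : A ∈ K := hK.2 _ hRK _ hAR
    refine ⟨insert A Rs, Tr, insert R L, pre_glue hK hP hRK hR4 hA3 hAR hG ?_, ?_,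
      ext_glue hP h7 hRK hR4 hA3 hAR hG, h8⟩
    · exact hR V K 𝓕 G A R F F' hK hp htwo (hstar A hAK) b1 b2 hA3 hAR hR4 hG hF hF' hne h1 h2 hs
    · rw [h6, union_insert]

/-- each triangle of a 4-simplex lies in two tetrahedra of it -/
theorem two_tetra {F A : Finset V} (hF : F.card = 5) (hAF : A ⊆ F) (hA : A.card = 3) :
    ((F.powersetCard 4).filter (fun S => A ⊆ S)).card = 2 := by
  have h1 : (F \ A).card = 2 := by rw [card_sdiff_of_subset hAF]; omega
  rw [← h1]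
  symm
  apply card_bij (fun x _ => F.erase x)
  · intro x hx
    rw [mem_sdiff] at hx
    rw [mem_filter, mem_powersetCard]
    refine ⟨⟨erase_subset _ _, by rw [card_erase_of_mem hx.1]; omega⟩, ?_⟩
    intro y hy
    rw [mem_erase]
    exact ⟨fun e => hx.2 (e ▸ hy), hAF hy⟩
  · intro x hx y hy hxy
    rw [mem_sdiff] at hx hy
    by_contra hne
    have : x ∈ F.erase y := mem_erase.2 ⟨hne, hx.1⟩
    rw [← hxy] at this
    exact (notMem_erase x F) this
  · intro S hS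
    rw [mem_filter, mem_powersetCard] at hS
    have h2 : (F \ S).card = 1 := by rw [card_sdiff_of_subset hS.1.1]; omega
    obtain ⟨x, hx⟩ := card_eq_one.1 h2
    have hx' : x ∈ F \ S := by rw [hx]; exact mem_singleton_self x
    rw [mem_sdiff] at hx'
    refine ⟨x, mem_sdiff.2 ⟨hx'.1, fun h => hx'.2 (hS.2 h)⟩, ?_⟩
    ext y
    rw [mem_erase]
    constructor
    · rintro ⟨hyx, hyF⟩
      by_contra hyS
      have : y ∈ F \ S := mem_sdiff.2 ⟨hyF, hyS⟩
      rw [hx, mem_singleton] at this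
      exact hyx this
    · intro hyS
      exact ⟨fun e => hx'.2 (e ▸ hyS), hS.1.1 hyS⟩

theorem dl_dl (z : Finset V → ZMod 2) {F : Finset V} (hF : F.card = 5) : ∑ S ∈ F.powersetCard 4, dl z S = 0 := by
  have h1 : ∀ S ∈ F.powersetCard 4, dl z S = ∑ A ∈ F.powersetCard 3, if A ⊆ S then z A else 0 := by
    intro S hS
    rw [mem_powersetCard] at hS
    unfold dl
    rw [← sum_filter]
    apply sum_congr _ (fun _ _ => rfl)
    ext A
    rw [mem_filter, mem_powersetCard, mem_powersetCard]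
    constructor
    · rintro ⟨h1, h2⟩
      exact ⟨⟨h1.trans hS.1, h2⟩, h1⟩
    · rintro ⟨⟨h1, h2⟩, h3⟩
      exact ⟨h3, h2⟩
  rw [sum_congr rfl h1, sum_comm]
  apply sum_eq_zero
  intro A hA
  rw [mem_powersetCard] at hA
  rw [← sum_filter, sum_const, two_tetra hF hA.1 hA.2, two_smul]
  exact CharTwo.add_self_eq_zero _

/-- Module COL2 -/
def S_COL2 : Prop := ∀ (V : Type) [DecidableEq V] (K : Finset (Finset V)), IsCx K → IsLC 4 K → ∃ Rs, GoodRs K Rs ∧
  ∀ w : Finset V → ZMod 2, (∀ A ∈ bd K, w A = 0) → ∃ z : Finset V → ZMod 2, (∀ A, A ∉ Rs → z A = w A) ∧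
    ∀ S ∈ K, S.card = 4 → ∑ A ∈ S.powersetCard 3, z A = 0

theorem t_COL2 (hR : S_RDG) : S_COL2 := by
  intro V _ K hK hLC
  obtain ⟨hp, htwo, 𝓕, G, hst, hall, hconn⟩ := hLC
  obtain ⟨b1, b2, -⟩ := stage_basic hst
  have hstar : ∀ A ∈ K, ∀ X Y, IsFacet K X → IsFacet K Y → A ⊆ X → A ⊆ Y → Relation.ReflTransGen
      (fun X Y => IsFacet K X ∧ IsFacet K Y ∧ ∃ S ∈ K, S.card = 4 ∧ A ⊆ S ∧ S ⊆ X ∧ S ⊆ Y) X Y := by
    intro A hA X Y hX hY hAX hAY
    refine Relation.ReflTransGen.mono ?_ _ _ (hconn A hA X (hall X hX) Y (hall Y hY) hAX hAY)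
    rintro X' Y' ⟨hX', hY', R, hR', h1, h2, h3⟩
    exact ⟨b1 X' hX', b1 Y' hY', R, hK.2 _ (b1 X' hX').1 _ h2, (b2 R hR').1, h1, h2, h3⟩
  obtain ⟨Rs, Tr, L, hP, hGT, hE, hTI⟩ := exists_pre2 hR hK hp htwo hstar hst
  have hgood := goodRs_of_pre hK hp b1 b2 hall hconn hP
  refine ⟨Rs, hgood.1, fun w hw => ?_⟩
  obtain ⟨z, hz1, hz2⟩ := hE w
  have hzbd : ∀ A ∈ bd K, z A = 0 := by
    intro A hA
    rw [hz1 A (fun h => (hgood.1.1 A h).2.2 hA), hw A hA]
  refine ⟨z, hz1, ?_⟩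
  -- tetrahedra that are not glued lie in the boundary
  have hbdS : ∀ S ∈ K, S.card = 4 → S ∉ G → S ∈ bd K := by
    intro S hS hS4 hSG
    by_contra hb
    apply hSG
    rw [← hgood.2]
    exact mem_filter.2 ⟨mem_sdiff.2 ⟨hS, hb⟩, hS4⟩
  have hdl0 : ∀ S ∈ bd K, dl z S = 0 := by
    intro S hS
    apply sum_eq_zero
    intro A hA
    rw [mem_powersetCard] at hA
    apply hzbd
    unfold bd at hS ⊢
    rw [mem_filter] at hS ⊢
    obtain ⟨h1, R, h2, h3, h4, h5⟩ := hS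
    exact ⟨hK.2 _ h1 _ hA.1, R, h2, h3, hA.1.trans h4, h5⟩
  have htree := hTI (fun S => if S ∈ Tr then dl z S else 0) (fun S hS => if_neg hS) (by
    intro F hF
    refine (sum_congr rfl ?_).trans (dl_dl z (hp F (b1 F hF)))
    intro S hS
    rw [mem_powersetCard] at hS
    split_ifs with h
    · rfl
    · symm
      have hSK : S ∈ K := hK.2 _ (b1 F hF).1 _ hS.1
      by_cases hL : S ∈ L
      · exact hz2 S hL
      · apply hdl0
        apply hbdS S hSK hS.2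
        rw [hGT, mem_union]
        rintro (h1 | h1)
        · exact h h1
        · exact hL h1)
  intro S hS hS4
  show dl z S = 0
  by_cases hT : S ∈ Tr
  · have := htree S hT
    simp only [hT, if_true] at this
    exact this
  by_cases hL : S ∈ L
  · exact hz2 S hL
  apply hdl0
  apply hbdS S hS hS4
  rw [hGT, mem_union]
  rintro (h1 | h1)
  · exact hT h1
  · exact hL h1

end Pool.Agent.L0h44.LC
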