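import Mathlib
import Pool.Agent.L0h44.LC.Stm

set_option autoImplicit false

/-!
# Project LC, module SOL: extension of flat labellings of the boundary
-/

namespace Pool.Agent.L0h44.LC

open Finset Pool.Agent.H933R3

theorem continuous_inv_su2 : Continuous (fun x : SU2 => x⁻¹) := by
  rw [continuous_induced_rng]
  exact continuous_star.comp continuous_subtype_val

/-! ### words -/

section words

variable {H : Type} [Group H] {z : H}

theorem prod_upd (hz : ∀ x : H, z * x = x * z) {M : ℕ} (k : Fin M) (f : Fin M → H) :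
    ∀ l : List (Fin M), l.Nodup →
      (l.map (fun i => if i = k then z * f i else f i)).prod =
        if k ∈ l then z * (l.map f).prod else (l.map f).prod := by
  intro l
  induction l with
  | nil => intro _; simp
  | cons a l ih =>
    intro hl
    rw [List.nodup_cons] at hl
    rw [List.map_cons, List.prod_cons, ih hl.2, List.map_cons, List.prod_cons]
    by_cases hak : a = k
    · subst hak
      rw [if_pos rfl, if_neg hl.1, if_pos (by simp), mul_assoc]
    · rw [if_neg hak]
      by_cases hkl : k ∈ l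
      · rw [if_pos hkl, if_pos (List.mem_cons_of_mem _ hkl), ← mul_assoc, ← hz (f a), mul_assoc]
      · rw [if_neg hkl, if_neg (by
          rw [List.mem_cons]
          rintro (h | h)
          · exact hak h.symm
          · exact hkl h)]

/-- the word with the exponents `c` -/
def wd {M : ℕ} (c : Fin M → ZMod 2) (y : Fin M → H) : H :=
  ((List.finRange M).map (fun i => if c i = 0 then 1 else y i)).prod

/-- the sign -/
def sg (z : H) (a : ZMod 2) : H := if a = 0 then 1 else z

theorem sg_add (hz2 : z * z = 1) (a b : ZMod 2) : sg z (a + b) = sg z a * sg z b := by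
  have h : ∀ a : ZMod 2, a = 0 ∨ a = 1 := by decide
  have h11 : (1 : ZMod 2) + 1 = 0 := by decide
  unfold sg
  rcases h a with rfl | rfl <;> rcases h b with rfl | rfl
  · simp
  · simp
  · simp
  · rw [h11, if_pos rfl, if_neg one_ne_zero, hz2]

theorem sg_comm (hz : ∀ x : H, z * x = x * z) (a : ZMod 2) (x : H) : sg z a * x = x * sg z a := by
  unfold sg
  split_ifs
  · rw [one_mul, mul_one]
  · exact hz x

theorem sg_inv (hz2 : z * z = 1) (a : ZMod 2) : (sg z a)⁻¹ = sg z a := by
  unfold sg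
  split_ifs
  · exact inv_one
  · exact inv_eq_of_mul_eq_one_left hz2

theorem wd_upd (hz : ∀ x : H, z * x = x * z) {M : ℕ} (c : Fin M → ZMod 2) (k : Fin M) (y : Fin M → H) :
    wd c (Function.update y k (z * y k)) = sg z (c k) * wd c y := by
  unfold wd sg
  by_cases hc : c k = 0
  · rw [if_pos hc, one_mul]
    congr 1
    apply List.map_congr_left
    intro i _
    by_cases hik : i = k
    · subst hik; rw [if_pos hc, if_pos hc]
    · rw [Function.update_of_ne hik]
  · rw [if_neg hc]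
    have h := prod_upd hz k (fun i => if c i = 0 then 1 else y i) (List.finRange M) (List.nodup_finRange M)
    rw [if_pos (List.mem_finRange k)] at h
    rw [← h]
    congr 1
    apply List.map_congr_left
    intro i _
    by_cases hik : i = k
    · subst hik; rw [if_neg hc, if_pos rfl, if_neg hc, Function.update_self]
    · rw [Function.update_of_ne hik, if_neg hik]

end words

theorem wd_cont {M : ℕ} (c : Fin M → ZMod 2) : Continuous (fun y : Fin M → SU2 => wd c y) := by
  unfold wd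
  apply continuous_list_prod
  intro i _
  by_cases hc : c i = 0
  · simp only [hc, if_true]
    exact continuous_const
  · simp only [hc, if_false]
    exact continuous_apply i

/-! ### labellings -/

section lab

variable {n M : ℕ} {H : Type} [Group H]

open Classical in
/-- the labelling with the given values on the boundary -/
noncomputable def lab (D : Finset (Finset (Fin n))) (ρ : Fin n → Fin n → H) (b : Fin M → Finset (Fin n) → ZMod 2)
    (y : Fin M → H) (u v : Fin n) : H :=
  if ({u, v} : Finset (Fin n)) ∈ D then ρ u v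
  else if u < v then wd (fun i => b i {u, v}) y
  else if v < u then (wd (fun i => b i {u, v}) y)⁻¹
  else 1

variable {D : Finset (Finset (Fin n))} {ρ : Fin n → Fin n → H} {b : Fin M → Finset (Fin n) → ZMod 2}

theorem flat_one (hD : ∀ σ ∈ D, ∀ τ : Finset (Fin n), τ ⊆ σ → τ ∈ D) (hρ : Flat D ρ) {u : Fin n}
    (h : ({u} : Finset (Fin n)) ∈ D) : ρ u u = 1 := by
  have h1 := hρ u u u (by simpa using h)
  exact mul_eq_left.1 h1

theorem flat_inv (hD : ∀ σ ∈ D, ∀ τ : Finset (Fin n), τ ⊆ σ → τ ∈ D) (hρ : Flat D ρ) {u v : Fin n}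
    (h : ({u, v} : Finset (Fin n)) ∈ D) : ρ v u = (ρ u v)⁻¹ := by
  have h1 := hρ u v u (by
    have : ({u, v, u} : Finset (Fin n)) = {u, v} := by
      ext x; simp only [mem_insert, mem_singleton]; tauto
    rw [this]; exact h)
  rw [flat_one hD hρ (hD _ h {u} (by simp))] at h1
  exact eq_inv_of_mul_eq_one_right h1

theorem lab_self (hD : ∀ σ ∈ D, ∀ τ : Finset (Fin n), τ ⊆ σ → τ ∈ D) (hρ : Flat D ρ) (y : Fin M → H) (u : Fin n) :
    lab D ρ b y u u = 1 := by
  unfold lab
  by_cases h : ({u, u} : Finset (Fin n)) ∈ D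
  · rw [if_pos h]
    exact flat_one hD hρ (by simpa using h)
  · rw [if_neg h, if_neg (lt_irrefl u), if_neg (lt_irrefl u)]

theorem lab_inv (hD : ∀ σ ∈ D, ∀ τ : Finset (Fin n), τ ⊆ σ → τ ∈ D) (hρ : Flat D ρ) (y : Fin M → H) (u v : Fin n) :
    lab D ρ b y v u = (lab D ρ b y u v)⁻¹ := by
  unfold lab
  rw [pair_comm v u]
  by_cases h : ({u, v} : Finset (Fin n)) ∈ D
  · rw [if_pos h, if_pos h]
    exact flat_inv hD hρ h
  · rw [if_neg h, if_neg h]
    rcases lt_trichotomy u v with h1 | h1 | h1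
    · rw [if_neg (not_lt.2 h1.le), if_pos h1, if_pos h1]
    · subst h1
      rw [if_neg (lt_irrefl u), if_neg (lt_irrefl u), inv_one]
    · rw [if_pos h1, if_neg (not_lt.2 h1.le), if_pos h1, inv_inv]

theorem lab_upd {z : H} (hz : ∀ x : H, z * x = x * z) (hz2 : z * z = 1)
    (hb : ∀ i, ∀ e ∈ D, b i e = 0) (y : Fin M → H) (k : Fin M) {u v : Fin n} (huv : u ≠ v) :
    lab D ρ b (Function.update y k (z * y k)) u v = sg z (b k {u, v}) * lab D ρ b y u v := by
  unfold lab
  by_cases h : ({u, v} : Finset (Fin n)) ∈ D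
  · rw [if_pos h, if_pos h, hb k _ h]
    simp [sg]
  · rw [if_neg h, if_neg h]
    rcases lt_or_gt_of_ne huv with h1 | h1
    · rw [if_pos h1, if_pos h1, wd_upd hz]
    · rw [if_neg (not_lt.2 h1.le), if_pos h1, if_neg (not_lt.2 h1.le), if_pos h1, wd_upd hz, mul_inv_rev,
        sg_inv hz2, sg_comm hz]

end lab

theorem lab_cont {n M : ℕ} (D : Finset (Finset (Fin n))) (ρ : Fin n → Fin n → SU2)
    (b : Fin M → Finset (Fin n) → ZMod 2) (u v : Fin n) : Continuous (fun y : Fin M → SU2 => lab D ρ b y u v) := by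
  unfold lab
  split_ifs
  · exact continuous_const
  · exact wd_cont _
  · exact continuous_inv_su2.comp (wd_cont _)
  · exact continuous_const

theorem pow3 {n : ℕ} {p q r : Fin n} (hpq : p ≠ q) (hpr : p ≠ r) (hqr : q ≠ r) (b : Finset (Fin n) → ZMod 2) :
    ∑ e ∈ ({p, q, r} : Finset (Fin n)).powersetCard 2, b e = b {p, q} + b {q, r} + b {p, r} := by
  have h1 : p ∉ ({q, r} : Finset (Fin n)) := by simp [hpq, hpr]
  have h2 : (({q, r} : Finset (Fin n))).powersetCard 2 = {{q, r}} := by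
    have : ({q, r} : Finset (Fin n)).card = 2 := card_pair hqr
    conv_lhs => rw [← this]
    exact powersetCard_self _
  have h3 : ({p, q, r} : Finset (Fin n)).powersetCard 2 = {{q, r}, {p, q}, {p, r}} := by
    rw [show (2 : ℕ) = 1 + 1 from rfl, powersetCard_succ_insert h1, show (Nat.succ 1 : ℕ) = 2 from rfl, h2,
      powersetCard_one]
    ext e
    simp only [mem_union, mem_singleton, mem_image, mem_map, mem_insert, Function.Embedding.coeFn_mk]
    constructor
    · rintro (h | ⟨_, ⟨a, rfl | rfl, rfl⟩, rfl⟩)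
      · exact Or.inl h
      · exact Or.inr (Or.inl rfl)
      · exact Or.inr (Or.inr rfl)
    · rintro (h | h | h)
      · exact Or.inl h
      · exact Or.inr ⟨{q}, ⟨q, Or.inl rfl, rfl⟩, h.symm⟩
      · exact Or.inr ⟨{r}, ⟨r, Or.inr rfl, rfl⟩, h.symm⟩
  have h4 : ({q, r} : Finset (Fin n)) ≠ {p, q} := fun h => h1 (h ▸ mem_insert_self p _)
  have h5 : ({q, r} : Finset (Fin n)) ≠ {p, r} := fun h => h1 (h ▸ mem_insert_self p _)
  have h6 : ({p, q} : Finset (Fin n)) ≠ {p, r} := by
    intro h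
    have : q ∈ ({p, r} : Finset (Fin n)) := h ▸ (by simp)
    simp only [mem_insert, mem_singleton] at this
    rcases this with h7 | h7
    · exact hpq h7.symm
    · exact hqr h7
  rw [h3, sum_insert (by simp [h4, h5]), sum_insert (by simp [h6]), sum_singleton]
  ring

theorem six {n : ℕ} {H : Type} [Group H] {L : Fin n → Fin n → H} (h1 : ∀ u, L u u = 1)
    (h2 : ∀ u v, L v u = (L u v)⁻¹) {p q r : Fin n} (h : L p q * L q r = L p r) {u v w : Fin n}
    (he : ({u, v, w} : Finset (Fin n)) = {p, q, r}) : L u v * L v w = L u w := by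
  have key : ∀ x ∈ ({p, q, r} : Finset (Fin n)), ∀ y ∈ ({p, q, r} : Finset (Fin n)), L x y = (L p x)⁻¹ * L p y := by
    have hqr : L q r = (L p q)⁻¹ * L p r := by rw [← h]; group
    intro x hx y hy
    simp only [mem_insert, mem_singleton] at hx hy
    rcases hx with rfl | rfl | rfl <;> rcases hy with rfl | rfl | rfl
    · rw [h1]; simp
    · rw [h1]; simp
    · rw [h1]; simp
    · rw [h1, mul_one, h2]
    · rw [h1]; simp
    · exact hqr
    · rw [h1, mul_one, h2]
    · rw [h2, hqr]; group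
    · rw [h1]; simp
  have hu : u ∈ ({p, q, r} : Finset (Fin n)) := he ▸ (by simp)
  have hv : v ∈ ({p, q, r} : Finset (Fin n)) := he ▸ (by simp)
  have hw : w ∈ ({p, q, r} : Finset (Fin n)) := he ▸ (by simp)
  rw [key u hu v hv, key v hv w hw, key u hu w hw]
  group

theorem mul6 {H : Type} [Group H] {s1 s2 s3 x y w : H} (h2 : ∀ t, s2 * t = t * s2) (h3 : ∀ t, s3 * t = t * s3) :
    s1 * x * (s2 * y) * (s3 * w) = s1 * s2 * s3 * (x * y * w) := by
  have e1 : s1 * x * (s2 * y) * (s3 * w) = s1 * (x * s2) * y * s3 * w := by simp only [mul_assoc]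
  have e2 : s1 * (s2 * x) * y * s3 * w = s1 * s2 * ((x * y) * s3) * w := by simp only [mul_assoc]
  rw [e1, ← h2 x, e2, ← h3 (x * y)]
  simp only [mul_assoc]

theorem exists_z : ∃ z : SU2, (z : Matrix (Fin 2) (Fin 2) ℂ) = -1 := by
  refine ⟨⟨-1, ?_⟩, rfl⟩
  rw [Matrix.mem_specialUnitaryGroup_iff]
  constructor
  · rw [Matrix.mem_unitaryGroup_iff]
    simp
  · rw [Matrix.det_neg]
    simp

/-- extension of flat labellings, if the coboundary from the interior edges is onto -/
theorem sol_core (hB : S_BU) {n : ℕ} {K Rs : Finset (Finset (Fin n))} (hK : IsCx K) (hRs : GoodRs K Rs)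
    (hb : ∀ r ∈ (K \ bd K).filter (fun σ => σ.card = 3) \ Rs, ∃ b : Finset (Fin n) → ZMod 2,
      (∀ e, e ∉ K \ bd K → b e = 0) ∧ ∀ A ∈ (K \ bd K).filter (fun σ => σ.card = 3) \ Rs,
        ∑ e ∈ A.powersetCard 2, b e = if A = r then 1 else 0)
    {ρ : Fin n → Fin n → SU2} (hρ : Flat (bd K) ρ) :
    ∃ ρ' : Fin n → Fin n → SU2, Flat K ρ' ∧ ∀ u v : Fin n, {u, v} ∈ bd K → ρ' u v = ρ u v := by
  classical
  obtain ⟨T, hT⟩ : ∃ T, T = (K \ bd K).filter (fun σ => σ.card = 3) \ Rs := ⟨_, rfl⟩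
  rw [← hT] at hb
  choose! b0 hb0 hb1 using hb
  have hD : ∀ σ ∈ bd K, ∀ τ : Finset (Fin n), τ ⊆ σ → τ ∈ bd K := by
    intro σ hσ τ hτ
    unfold bd at hσ ⊢
    rw [mem_filter] at hσ ⊢
    obtain ⟨h1, R, h2, h3, h4, h5⟩ := hσ
    exact ⟨hK.2 _ h1 _ hτ, R, h2, h3, hτ.trans h4, h5⟩
  obtain ⟨z, hzm⟩ := exists_z
  have hz : ∀ x : SU2, z * x = x * z := by
    intro x
    apply Subtype.ext
    show (z : Matrix (Fin 2) (Fin 2) ℂ) * x = x * z
    rw [hzm]; simp
  have hz2 : z * z = 1 := by
    apply Subtype.ext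
    show (z : Matrix (Fin 2) (Fin 2) ℂ) * z = 1
    rw [hzm]; simp
  -- enumeration of the triangles
  obtain ⟨M, e⟩ : ∃ M, Nonempty (T ≃ Fin M) := ⟨T.card, ⟨T.equivFin⟩⟩
  obtain ⟨e⟩ := e
  obtain ⟨tr, htr⟩ : ∃ tr : Fin M → Finset (Fin n), tr = fun i => (e.symm i : Finset (Fin n)) := ⟨_, rfl⟩
  have htrT : ∀ i, tr i ∈ T := fun i => by rw [htr]; exact (e.symm i).2
  have htri : Function.Injective tr := by
    intro i j hij
    rw [htr] at hij
    exact e.symm.injective (Subtype.ext hij)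
  have htrs : ∀ A ∈ T, ∃ i, tr i = A := fun A hA => ⟨e ⟨A, hA⟩, by rw [htr]; simp⟩
  have hT3 : ∀ A ∈ T, A.card = 3 := fun A hA => by
    rw [hT, mem_sdiff, mem_filter] at hA
    exact hA.1.2
  have h3 : ∀ i, ∃ p q r, p ≠ q ∧ p ≠ r ∧ q ≠ r ∧ tr i = {p, q, r} := fun i =>
    card_eq_three.1 (hT3 _ (htrT i))
  choose p q r hpq hpr hqr hpqr using h3
  obtain ⟨b, hbd⟩ : ∃ b : Fin M → Finset (Fin n) → ZMod 2, b = fun i => b0 (tr i) := ⟨_, rfl⟩
  have hb2 : ∀ i, ∀ e ∈ bd K, b i e = 0 := by
    intro i e he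
    rw [hbd]
    exact hb0 _ (htrT i) e (fun h => (mem_sdiff.1 h).2 he)
  obtain ⟨y, hy⟩ := hB z hzm M (fun i y => lab (bd K) ρ b y (p i) (q i) * lab (bd K) ρ b y (q i) (r i) *
      lab (bd K) ρ b y (r i) (p i))
    (fun i => ((lab_cont _ _ _ _ _).mul (lab_cont _ _ _ _ _)).mul (lab_cont _ _ _ _ _)) (by
      intro i k y
      have h4 : b k {p i, q i} + b k {q i, r i} + b k {p i, r i} = if tr i = tr k then 1 else 0 := by
        rw [← pow3 (hpq i) (hpr i) (hqr i), ← hpqr i, hbd]
        exact hb1 _ (htrT k) _ (htrT i)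
      have h5 : (if i = k then z * (lab (bd K) ρ b y (p i) (q i) * lab (bd K) ρ b y (q i) (r i) *
          lab (bd K) ρ b y (r i) (p i)) else lab (bd K) ρ b y (p i) (q i) * lab (bd K) ρ b y (q i) (r i) *
          lab (bd K) ρ b y (r i) (p i)) = sg z (if tr i = tr k then 1 else 0) *
          (lab (bd K) ρ b y (p i) (q i) * lab (bd K) ρ b y (q i) (r i) * lab (bd K) ρ b y (r i) (p i)) := by
        by_cases hik : i = k
        · subst hik
          rw [if_pos rfl, if_pos rfl]
          simp [sg]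
        · rw [if_neg hik, if_neg (fun h => hik (htri h))]
          simp [sg]
      rw [h5, ← h4, sg_add hz2, sg_add hz2, lab_upd hz hz2 hb2 y k (hpq i), lab_upd hz hz2 hb2 y k (hqr i),
        lab_upd hz hz2 hb2 y k (hpr i).symm, pair_comm (r i) (p i)]
      exact mul6 (fun t => sg_comm hz _ t) (fun t => sg_comm hz _ t))
  have hself := lab_self (b := b) hD hρ y
  have hinv := lab_inv (b := b) hD hρ y
  refine ⟨lab (bd K) ρ b y, hRs.2.2 SU2 _ hself hinv ?_, ?_⟩
  · intro u v w huvw hc hn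
    by_cases hbdA : ({u, v, w} : Finset (Fin n)) ∈ bd K
    · have h6 : ({u, v} : Finset (Fin n)) ∈ bd K := hD _ hbdA _ (by
        intro x hx; simp only [mem_insert, mem_singleton] at hx ⊢; tauto)
      have h7 : ({v, w} : Finset (Fin n)) ∈ bd K := hD _ hbdA _ (by
        intro x hx; simp only [mem_insert, mem_singleton] at hx ⊢; tauto)
      have h8 : ({u, w} : Finset (Fin n)) ∈ bd K := hD _ hbdA _ (by
        intro x hx; simp only [mem_insert, mem_singleton] at hx ⊢; tauto)
      unfold lab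
      rw [if_pos h6, if_pos h7, if_pos h8]
      exact hρ u v w hbdA
    · have hA : ({u, v, w} : Finset (Fin n)) ∈ T := by
        rw [hT, mem_sdiff, mem_filter, mem_sdiff]
        exact ⟨⟨⟨huvw, hbdA⟩, hc⟩, hn⟩
      obtain ⟨i, hi⟩ := htrs _ hA
      have h9 := hy i
      have h10 : lab (bd K) ρ b y (p i) (q i) * lab (bd K) ρ b y (q i) (r i) = lab (bd K) ρ b y (p i) (r i) := by
        rw [hinv (p i) (r i)] at h9
        exact mul_inv_eq_one.1 h9
      exact six hself hinv h10 (by rw [← hi, hpqr i])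
  · intro u v huv
    unfold lab
    rw [if_pos huv]

theorem t_SOL (hC : S_COL) (hS : S_SUR) (hB : S_BU) : S_SOL := by
  intro n K hK hLC hne hconn hχ ρ hρ
  obtain ⟨Rs, hRs⟩ := hC (Fin n) K hK hLC
  exact sol_core hB hK hRs (hS (Fin n) K Rs hK hLC hne hconn hχ hRs) hρ

end Pool.Agent.L0h44.LC
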