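import Mathlib
import Pool.Agent.L0h44.LC.Stm
import Pool.Agent.Helper965_Rud.ASDefs

set_option autoImplicit false

/-!
# Project LC (MP_07bfe7_gt), second part: contractible manifolds
-/

namespace Pool.Agent.L0h44.LC

open Finset Pool.Agent.H933R3 Topology

/-- the points of `X` without an open neighbourhood homeomorphic to an open subset of `ℝ⁴` -/
def TopBd (X : Type) [TopologicalSpace X] : Set X :=
  {x | ¬ ∃ U : Set X, IsOpen U ∧ x ∈ U ∧ ∃ W : Set (EuclideanSpace ℝ (Fin 4)), IsOpen W ∧ Nonempty (U ≃ₜ W)}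

/-- the closed half space of `ℝ⁴` -/
abbrev Half : Type := {y : EuclideanSpace ℝ (Fin 4) // 0 ≤ y 0}

/-- `X` is locally homeomorphic to the half space of `ℝ⁴` (a 4-manifold with boundary, if it is also Hausdorff and
second countable) -/
def IsMfd (X : Type) [TopologicalSpace X] : Prop :=
  ∀ x : X, ∃ U : Set X, IsOpen U ∧ x ∈ U ∧ ∃ W : Set Half, IsOpen W ∧ Nonempty (U ≃ₜ W)

/-- Module ACY -/
def S_ACY : Prop := ∀ (n : ℕ) (K : Finset (Finset (Fin n))), IsCx K → ContractibleSpace (realization K) →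
  Pool.Agent.Helper965_Rud.AS.HV (realization K) 3

/-- Module INJ: simplicial cocycles are coboundaries if Alexander-Spanier cocycles are -/
def S_INJ : Prop := ∀ (n : ℕ) (K : Finset (Finset (Fin n))), IsCx K →
  Pool.Agent.Helper965_Rud.AS.HV (realization K) 3 → ∀ z : Finset (Fin n) → ZMod 2,
  (∀ S ∈ K, S.card = 4 → ∑ A ∈ S.powersetCard 3, z A = 0) →
  ∃ y : Finset (Fin n) → ZMod 2, ∀ A ∈ K, A.card = 3 → ∑ e ∈ A.powersetCard 2, y e = z A

/-- Module PI2: if all homomorphisms on the fundamental group are trivial, then so are all flat labellings -/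
def S_PI2 : Prop := ∀ (n : ℕ) (D : Finset (Finset (Fin n))), IsCx D → PathConnectedSpace (realization D) →
  ∀ (H : Type) [Group H], (∀ (x : realization D) (φ : FundamentalGroup (realization D) x →* H), φ = 1) →
  ∀ ρ : Fin n → Fin n → H, Flat D ρ → Triv D ρ

/-- Module CON -/
def S_CON : Prop := ∀ (n : ℕ) (D : Finset (Finset (Fin n))), IsCx D → PathConnectedSpace (realization D) → EConn D

/-- Module BD1: a point of an open tetrahedron that lies in exactly one 4-simplex has no Euclidean neighbourhood -/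
def S_BD1 : Prop := ∀ (n : ℕ) (K : Finset (Finset (Fin n))), IsCx K → (∀ F, IsFacet K F → F.card = 5) →
  ∀ R ∈ K, R.card = 4 → (K.filter (fun F => F.card = 5 ∧ R ⊆ F)).card = 1 →
  ∀ q : realization K, (∀ i, i ∈ R ↔ q.1 i ≠ 0) → q ∈ TopBd (realization K)

/-- Module BD2: a point of an open 4-simplex, or of an open tetrahedron that lies in exactly two 4-simplices, has a
Euclidean neighbourhood -/
def S_BD2 : Prop := ∀ (n : ℕ) (K : Finset (Finset (Fin n))), IsCx K → (∀ F, IsFacet K F → F.card = 5) →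
  ∀ R ∈ K, (R.card = 5 ∨ (R.card = 4 ∧ (K.filter (fun F => F.card = 5 ∧ R ⊆ F)).card = 2)) →
  ∀ q : realization K, (∀ i, i ∈ R ↔ q.1 i ≠ 0) → q ∉ TopBd (realization K)

/-- Module BD3: no nonempty open part of the boundary of a manifold lies in a simplicial complex of dimension 2 -/
def S_BD3 : Prop := ∀ (n : ℕ) (K : Finset (Finset (Fin n))), IsMfd (realization K) →
  ∀ O : Set (realization K), IsOpen O → (∀ q ∈ O, q ∈ TopBd (realization K) → ∃ A ∈ K, A.card ≤ 3 ∧
    ∀ i, i ∉ A → q.1 i = 0) → ∀ q ∈ O, q ∉ TopBd (realization K)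

end Pool.Agent.L0h44.LC
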