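import Mathlib
import Pool.Agent.L0h44.LC.COL2
import Pool.Agent.L0h44.LC.SOL
import Pool.Agent.L0h44.LC.Stm2

set_option autoImplicit false

/-!
# Project LC: surjectivity of the coboundary from the vanishing of cohomology
-/

namespace Pool.Agent.L0h44.LC

open Finset Pool.Agent.H933R3

theorem bd_closed {V : Type} [DecidableEq V] {K : Finset (Finset V)} (hK : IsCx K) :
    ∀ σ ∈ bd K, ∀ τ : Finset V, τ ⊆ σ → τ ∈ bd K := by
  intro σ hσ τ hτ
  unfold bd at hσ ⊢
  rw [mem_filter] at hσ ⊢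
  obtain ⟨h1, R, h2, h3, h4, h5⟩ := hσ
  exact ⟨hK.2 _ h1 _ hτ, R, h2, h3, hτ.trans h4, h5⟩

theorem bd_isCx {V : Type} [DecidableEq V] {K : Finset (Finset V)} (hK : IsCx K) (hne : (bd K).Nonempty) :
    IsCx (bd K) := by
  obtain ⟨σ, hσ⟩ := hne
  exact ⟨bd_closed hK σ hσ ∅ (empty_subset _), fun σ hσ τ hτ => bd_closed hK σ hσ τ hτ⟩

theorem ofAdd_toAdd_mul (a b : Multiplicative (ZMod 2)) : Multiplicative.toAdd (a * b) =
    Multiplicative.toAdd a + Multiplicative.toAdd b := rfl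

/-- surjectivity of the coboundary -/
theorem sur2 {n : ℕ} {K Rs : Finset (Finset (Fin n))} (hK : IsCx K) (hRs : GoodRs K Rs)
    (hext : ∀ w : Finset (Fin n) → ZMod 2, (∀ A ∈ bd K, w A = 0) → ∃ z : Finset (Fin n) → ZMod 2,
      (∀ A, A ∉ Rs → z A = w A) ∧ ∀ S ∈ K, S.card = 4 → ∑ A ∈ S.powersetCard 3, z A = 0)
    (hZ : ∀ z : Finset (Fin n) → ZMod 2, (∀ S ∈ K, S.card = 4 → ∑ A ∈ S.powersetCard 3, z A = 0) →
      ∃ y : Finset (Fin n) → ZMod 2, ∀ A ∈ K, A.card = 3 → ∑ e ∈ A.powersetCard 2, y e = z A)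
    (hB : ∀ ρ : Fin n → Fin n → Multiplicative (ZMod 2), Flat (bd K) ρ → Triv (bd K) ρ) :
    ∀ r ∈ (K \ bd K).filter (fun σ => σ.card = 3) \ Rs, ∃ b : Finset (Fin n) → ZMod 2,
      (∀ e, e ∉ K \ bd K → b e = 0) ∧ ∀ A ∈ (K \ bd K).filter (fun σ => σ.card = 3) \ Rs,
        ∑ e ∈ A.powersetCard 2, b e = if A = r then 1 else 0 := by
  classical
  intro r hr
  rw [mem_sdiff, mem_filter, mem_sdiff] at hr
  obtain ⟨z, hz1, hz2⟩ := hext (fun A => if A = r then 1 else 0) (fun A hA => if_neg (by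
    rintro rfl; exact hr.1.1.2 hA))
  obtain ⟨y, hy⟩ := hZ z hz2
  have hzbd : ∀ A ∈ bd K, z A = 0 := by
    intro A hA
    rw [hz1 A (fun h => (hRs.1 A h).2.2 hA), if_neg (by rintro rfl; exact hr.1.1.2 hA)]
  have hbdK : ∀ A ∈ bd K, A ∈ K := fun A hA => (mem_filter.1 hA).1
  -- the labelling of the boundary
  obtain ⟨f, hf⟩ := hB (fun u v => Multiplicative.ofAdd (if u = v then 0 else y {u, v})) (by
    intro u v w huvw
    apply Multiplicative.toAdd.injective
    rw [ofAdd_toAdd_mul]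
    simp only [toAdd_ofAdd]
    by_cases huv : u = v
    · subst huv; simp
    by_cases hvw : v = w
    · subst hvw; simp
    by_cases huw : u = w
    · subst huw
      rw [if_neg huv, if_neg hvw, if_pos rfl, pair_comm v u]
      exact CharTwo.add_self_eq_zero _
    rw [if_neg huv, if_neg hvw, if_neg huw]
    have h1 := hy _ (hbdK _ huvw) (card_eq_three.2 ⟨u, v, w, huv, huw, hvw, rfl⟩)
    rw [pow3 huv huw hvw, hzbd _ huvw] at h1
    have h2 := eq_neg_of_add_eq_zero_left h1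
    rw [h2, CharTwo.neg_eq])
  have hf' : ∀ u v : Fin n, u ≠ v → ({u, v} : Finset (Fin n)) ∈ bd K →
      y {u, v} = Multiplicative.toAdd (f u) + Multiplicative.toAdd (f v) := by
    intro u v huv h
    have h1 := congrArg Multiplicative.toAdd (hf u v h)
    simp only [if_neg huv, toAdd_ofAdd] at h1
    rw [h1, ofAdd_toAdd_mul, toAdd_inv, CharTwo.neg_eq]
  refine ⟨fun e => if e ∈ K \ bd K then y e + ∑ i ∈ e, Multiplicative.toAdd (f i) else 0, fun e he => if_neg he, ?_⟩
  intro A hA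
  rw [mem_sdiff, mem_filter, mem_sdiff] at hA
  have h3 : ∀ e ∈ A.powersetCard 2, (if e ∈ K \ bd K then y e + ∑ i ∈ e, Multiplicative.toAdd (f i) else 0) =
      y e + ∑ i ∈ e, Multiplicative.toAdd (f i) := by
    intro e he
    rw [mem_powersetCard] at he
    split_ifs with h
    · rfl
    · have heK : e ∈ K := hK.2 _ hA.1.1.1 _ he.1
      have heb : e ∈ bd K := by
        by_contra hb
        exact h (mem_sdiff.2 ⟨heK, hb⟩)
      obtain ⟨u, v, huv, rfl⟩ := card_eq_two.1 he.2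
      rw [sum_pair huv, hf' u v huv heb]
      exact (CharTwo.add_self_eq_zero _).symm
  rw [sum_congr rfl h3, sum_add_distrib, hy A hA.1.1.1 hA.1.2, hz1 A hA.2]
  obtain ⟨p, q, s, hpq, hps, hqs, rfl⟩ := card_eq_three.1 hA.1.2
  rw [pow3 hpq hps hqs (fun e => ∑ i ∈ e, Multiplicative.toAdd (f i)), sum_pair hpq, sum_pair hqs, sum_pair hps]
  have h4 : Multiplicative.toAdd (f p) + Multiplicative.toAdd (f q) + (Multiplicative.toAdd (f q) +
      Multiplicative.toAdd (f s)) + (Multiplicative.toAdd (f p) + Multiplicative.toAdd (f s)) = 0 := by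
    generalize Multiplicative.toAdd (f p) = a
    generalize Multiplicative.toAdd (f q) = b
    generalize Multiplicative.toAdd (f s) = c
    revert a b c
    decide
  rw [h4, add_zero]

end Pool.Agent.L0h44.LC
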