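import Mathlib
import Pool.Agent.L0h44.LC.SUR2
import Pool.Agent.Y364.E3.Loc

set_option autoImplicit false

/-!
# Project LC: the boundary complex triangulates the boundary of the manifold
-/

namespace Pool.Agent.L0h44.LC

open Finset Pool.Agent.H933R3 Pool.Agent.Y364.E3 Topology

theorem real_closed {n : ℕ} (K : Finset (Finset (Fin n))) : IsClosed (realization K) := by
  have h : realization K = ({x | ∀ i, 0 ≤ x i} ∩ {x | ∑ i, x i = 1}) ∩
      ⋃ σ ∈ K, {x : Fin n → ℝ | ∀ i, i ∉ σ → x i = 0} := by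
    ext x
    simp only [realization, Set.mem_inter_iff, Set.mem_ofPred_eq, Set.mem_iUnion, exists_prop]
    tauto
  rw [h]
  refine ((?_ : IsClosed _).inter ?_).inter ?_
  · have : {x : Fin n → ℝ | ∀ i, 0 ≤ x i} = ⋂ i, {x | 0 ≤ x i} := by ext x; simp
    rw [this]
    exact isClosed_iInter fun i => isClosed_le continuous_const (continuous_apply i)
  · exact isClosed_eq (continuous_finset_sum _ fun i _ => continuous_apply i) continuous_const
  · refine Set.Finite.isClosed_biUnion K.finite_toSet fun σ _ => ?_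
    have : {x : Fin n → ℝ | ∀ i, i ∉ σ → x i = 0} = ⋂ i, ⋂ (_ : i ∉ σ), {x | x i = 0} := by ext x; simp
    rw [this]
    exact isClosed_iInter fun i => isClosed_iInter fun _ => isClosed_eq (continuous_apply i) continuous_const

theorem topBd_closed (X : Type) [TopologicalSpace X] : IsClosed (TopBd X) := by
  rw [← isOpen_compl_iff, isOpen_iff_mem_nhds]
  intro x hx
  rw [Set.mem_compl_iff, TopBd, Set.mem_ofPred_eq, not_not] at hx
  obtain ⟨U, hU, hxU, hW⟩ := hx
  filter_upwards [hU.mem_nhds hxU] with y hy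
  rw [Set.mem_compl_iff, TopBd, Set.mem_ofPred_eq, not_not]
  exact ⟨U, hU, hy, hW⟩

theorem filter_le_two {V : Type} [DecidableEq V] {K : Finset (Finset V)} (hK : IsCx K)
    (hp : ∀ F, IsFacet K F → F.card = 5) (htwo : AtMostTwo 4 K) {R : Finset V} (hR : R.card = 4) :
    (K.filter (fun F => F.card = 5 ∧ R ⊆ F)).card ≤ 2 := by
  by_contra hcon
  push Not at hcon
  obtain ⟨a, ha, b, hb, c, hc, hab, hac, hbc⟩ := two_lt_card.1 hcon
  rw [mem_filter] at ha hb hc
  have fa := facet_of_five hK hp ha.1 ha.2.1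
  have fb := facet_of_five hK hp hb.1 hb.2.1
  have fc := facet_of_five hK hp hc.1 hc.2.1
  rcases htwo R hR a b c fa fb fc ha.2.2 hb.2.2 hc.2.2 with e | e | e
  · exact hab e
  · exact hac e
  · exact hbc e

theorem topBd_eq (h1 : S_BD1) (h2 : S_BD2) (h3 : S_BD3) {n : ℕ} {K : Finset (Finset (Fin n))} (hK : IsCx K)
    (hLC : IsLC 4 K) (hM : IsMfd (realization K)) :
    TopBd (realization K) = {q : realization K | q.1 ∈ realization (bd K)} := by
  obtain ⟨hp, htwo, -⟩ := hLC
  apply Set.Subset.antisymm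
  · intro q hq
    by_contra hcon
    have hO : IsOpen {q : realization K | q.1 ∉ realization (bd K)} :=
      ((real_closed (bd K)).isOpen_compl).preimage continuous_subtype_val
    refine h3 n K hM _ hO ?_ q hcon hq
    intro q hq1 hq2
    have hsK : supp q.1 ∈ K := supp_mem hK q.2
    obtain ⟨F, hF, hsF⟩ := Pool.Agent.Y364.E3.exists_facet hsK
    have hsc : (supp q.1).card ≤ 5 := (card_le_card hsF).trans (hp F hF).le
    have hsupp : ∀ i, i ∈ supp q.1 ↔ q.1 i ≠ 0 := fun i => mem_supp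
    refine ⟨supp q.1, hsK, ?_, fun i hi => by
      by_contra hn
      exact hi (mem_supp.2 hn)⟩
    by_contra hc
    push Not at hc
    by_cases h5 : (supp q.1).card = 5
    · exact h2 n K hK hp _ hsK (Or.inl h5) q hsupp hq2
    have h4 : (supp q.1).card = 4 := by omega
    have hnb : supp q.1 ∉ bd K := by
      intro hb
      exact hq1 (mem_real hb q.2.1 q.2.2.1 (Subset.refl _))
    have hle := filter_le_two hK hp htwo h4
    have hpos : 0 < (K.filter (fun F => F.card = 5 ∧ supp q.1 ⊆ F)).card :=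
      card_pos.2 ⟨F, mem_filter.2 ⟨hF.1, hp F hF, hsF⟩⟩
    have hn1 : (K.filter (fun F => F.card = 5 ∧ supp q.1 ⊆ F)).card ≠ 1 := by
      intro h6
      exact hnb (mem_filter.2 ⟨hsK, supp q.1, hsK, h4, Subset.refl _, h6⟩)
    exact h2 n K hK hp _ hsK (Or.inr ⟨h4, by omega⟩) q hsupp hq2
  · intro q hq
    rw [Set.mem_ofPred_eq] at hq
    have hsb : supp q.1 ∈ bd K := by
      obtain ⟨ha, hb, σ, hσ, hc⟩ := hq
      refine bd_closed hK σ hσ _ (fun i hi => ?_)
      by_contra hn
      exact mem_supp.1 hi (hc i hn)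
    obtain ⟨-, R, hRK, hR4, hsR, hc⟩ := mem_filter.1 hsb
    rw [← (topBd_closed (realization K)).closure_eq, Metric.mem_closure_iff]
    intro δ hδ
    obtain ⟨z, hz, hzs, hzd⟩ := exists_point hK q.2 hRK hsR hδ
    refine ⟨⟨z, hz⟩, h1 n K hK hp R hRK hR4 hc ⟨z, hz⟩ (fun i => ?_), ?_⟩
    · rw [← hzs]; exact mem_supp
    · rw [Subtype.dist_eq, dist_comm]
      exact hzd

end Pool.Agent.L0h44.LC
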