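import Pool.Agent.L0h44.LC.Stm2
import Pool.Agent.Y364.E3.Loc

/-!
# Project LC, module CON: a complex with a path connected realization is connected
-/

set_option autoImplicit false

namespace Pool.Agent.L0h44.LC

open Finset Pool.Agent.H933R3 Topology Pool.Agent.Y364.E3

theorem t_CON : S_CON := by
  classical
  intro n D hD hpc u v hu hv
  by_contra hn
  set E : Fin n → Fin n → Prop := fun a b => ({a, b} : Finset (Fin n)) ∈ D with hE
  set C : Finset (Fin n) := univ.filter (fun w => Relation.ReflTransGen E u w) with hC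
  have hfac : ∀ σ ∈ D, ∀ a ∈ σ, ∀ b ∈ σ, a ∈ C → b ∈ C := by
    intro σ hσ a ha b hb haC
    rw [hC, mem_filter] at haC ⊢
    refine ⟨mem_univ b, haC.2.tail ?_⟩
    refine hD.2 σ hσ _ ?_
    intro i hi
    rw [mem_insert, mem_singleton] at hi
    rcases hi with rfl | rfl
    · exact ha
    · exact hb
  have hcont : Continuous (fun x : realization D => ∑ i ∈ C, x.1 i) :=
    continuous_finsetSum _ fun i _ => (continuous_apply i).comp continuous_subtype_val
  have hmem : ∀ w, ({w} : Finset (Fin n)) ∈ D → bary ({w} : Finset (Fin n)) ∈ realization D :=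
    fun w hw => bary_mem hw (singleton_nonempty w)
  have hval : ∀ w, ∑ i ∈ C, bary ({w} : Finset (Fin n)) i = if w ∈ C then 1 else 0 := by
    intro w
    have : ∀ i, bary ({w} : Finset (Fin n)) i = if i = w then 1 else 0 := by
      intro i
      unfold bary
      simp
    rw [sum_congr rfl fun i _ => this i, sum_ite_eq' C w]
  have huC : u ∈ C := by
    rw [hC, mem_filter]
    exact ⟨mem_univ u, Relation.ReflTransGen.refl⟩
  have hvC : v ∉ C := by
    intro h
    rw [hC, mem_filter] at h
    exact hn h.2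
  obtain ⟨x, hx⟩ : (1 / 2 : ℝ) ∈ Set.range (fun x : realization D => ∑ i ∈ C, x.1 i) := by
    refine mem_range_of_exists_le_of_exists_ge hcont ⟨⟨_, hmem v hv⟩, ?_⟩ ⟨⟨_, hmem u hu⟩, ?_⟩
    · show ∑ i ∈ C, bary ({v} : Finset (Fin n)) i ≤ 1 / 2
      rw [hval, if_neg hvC]
      norm_num
    · show 1 / 2 ≤ ∑ i ∈ C, bary ({u} : Finset (Fin n)) i
      rw [hval, if_pos huC]
      norm_num
  have hx' : ∑ i ∈ C, x.1 i = 1 / 2 := hx
  have hs := supp_mem hD x.2
  by_cases h : ∃ a ∈ supp x.1, a ∈ C
  · obtain ⟨a, ha, haC⟩ := h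
    have hsub : supp x.1 ⊆ C := fun b hb => hfac _ hs a ha b hb haC
    have h1 : ∑ i ∈ C, x.1 i = 1 := by
      rw [← sum_supp x.2]
      symm
      apply sum_subset hsub
      intro i _ hi
      by_contra h0
      exact hi (mem_supp.2 h0)
    rw [h1] at hx'
    norm_num at hx'
  · push Not at h
    have h1 : ∑ i ∈ C, x.1 i = 0 := by
      apply sum_eq_zero
      intro i hi
      by_contra h0
      exact h i (mem_supp.2 h0) hi
    rw [h1] at hx'
    norm_num at hx'

end Pool.Agent.L0h44.LC
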