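import Mathlib
import Pool.Agent.L0h44.LC.BDY

set_option autoImplicit false

/-!
# Project LC: assembly
-/

namespace Pool.Agent.L0h44.LC

open Finset Pool.Agent.H933R3 Pool.Agent.Y364.E3 Topology

/-- all homomorphisms from the fundamental groups of `Y` to `H` are trivial -/
def PiTriv (Y : Type) [TopologicalSpace Y] (H : Type) [Group H] : Prop :=
  ∀ (y : Y) (φ : FundamentalGroup Y y →* H), φ = 1

theorem piTriv_homeo {Y Z : Type} [TopologicalSpace Y] [TopologicalSpace Z] (h : Y ≃ₜ Z) {H : Type} [Group H]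
    (hY : PiTriv Y H) : PiTriv Z H := by
  intro z φ
  obtain ⟨y, rfl⟩ := h.surjective z
  have h1 := hY y (φ.comp (FundamentalGroup.map ⟨h, h.continuous⟩ y))
  ext g
  have hs : Function.Surjective (FundamentalGroup.map (⟨h, h.continuous⟩ : C(Y, Z)) y) := by
    intro g
    induction g using Quotient.inductionOn with
    | _ γ =>
      have hsy : h.symm (h y) = y := h.symm_apply_apply y
      refine ⟨FundamentalGroup.fromPath ⟦(γ.map h.symm.continuous).cast hsy.symm hsy.symm⟧, ?_⟩
      show (⟦((γ.map h.symm.continuous).cast hsy.symm hsy.symm).map h.continuous⟧ : Path.Homotopic.Quotient _ _) = ⟦γ⟧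
      congr 1
      ext t
      simp
  obtain ⟨g', rfl⟩ := hs g
  have h2 := DFunLike.congr_fun h1 g'
  simpa using h2

theorem isMfd_homeo {Y Z : Type} [TopologicalSpace Y] [TopologicalSpace Z] (h : Y ≃ₜ Z) (hY : IsMfd Y) :
    IsMfd Z := by
  intro z
  obtain ⟨U, hU, hz, W, hW, ⟨e⟩⟩ := hY (h.symm z)
  refine ⟨h.symm ⁻¹' U, hU.preimage h.symm.continuous, hz, W, hW, ⟨Homeomorph.trans ?_ e⟩⟩
  exact h.symm.sets (by ext x; simp)

theorem topBd_homeo {Y Z : Type} [TopologicalSpace Y] [TopologicalSpace Z] (h : Y ≃ₜ Z) (y : Y) :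
    h y ∈ TopBd Z → y ∈ TopBd Y := by
  intro hz hy
  apply hz
  obtain ⟨U, hU, hyU, W, hW, ⟨e⟩⟩ := hy
  refine ⟨h.symm ⁻¹' U, hU.preimage h.symm.continuous, ?_, W, hW, ⟨Homeomorph.trans ?_ e⟩⟩
  · rw [Set.mem_preimage, h.symm_apply_apply]
    exact hyU
  · exact h.symm.sets (by ext x; simp)

/-- the statement for labellings -/
theorem triv_of (hTRV : S_TRV) {n : ℕ} {K : Finset (Finset (Fin n))} (hK : IsCx K) (hLC : IsLC 4 K)
    {ρ ρ' : Fin n → Fin n → SU2} (h1 : Flat K ρ') (h2 : ∀ u v : Fin n, {u, v} ∈ bd K → ρ' u v = ρ u v) :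
    Triv (bd K) ρ := by
  obtain ⟨g, hg⟩ := hTRV (Fin n) K SU2 ρ' hK hLC h1
  exact ⟨g, fun u v huv => by rw [← h2 u v huv]; exact hg u v (mem_filter.1 huv).1⟩

/-- the combinatorial theorem: if `K` is locally constructible, its boundary is nonempty and connected and the
difference of the Euler characteristics is 1, then all flat SU(2)-labellings of the boundary are trivial -/
theorem main1 (hTRV : S_TRV) (hSOL : S_SOL) {n : ℕ} {K : Finset (Finset (Fin n))} (hK : IsCx K) (hLC : IsLC 4 K)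
    (hne : (bd K).Nonempty) (hc : EConn (bd K)) (hχ : euler K - euler (bd K) = 1) (ρ : Fin n → Fin n → SU2)
    (hρ : Flat (bd K) ρ) : Triv (bd K) ρ := by
  obtain ⟨ρ', h1, h2⟩ := hSOL n K hK hLC hne hc hχ ρ hρ
  exact triv_of hTRV hK hLC h1 h2

/-- `X` has a locally constructible triangulation -/
def HasLC (X : Type) [TopologicalSpace X] : Prop :=
  ∃ (n : ℕ) (K : Finset (Finset (Fin n))), IsCx K ∧ IsLC 4 K ∧ Nonempty (realization K ≃ₜ X)

/-- the topological theorem -/
theorem main2 (hRDG : S_RDG) (hTRV : S_TRV) (hBU : S_BU) (hPI1 : S_PI1) (hACY : S_ACY) (hINJ : S_INJ) (hPI2 : S_PI2)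
    (hCON : S_CON) (hBD1 : S_BD1) (hBD2 : S_BD2) (hBD3 : S_BD3) (X : Type) [TopologicalSpace X]
    [ContractibleSpace X] (hX : IsMfd X) (hc : PathConnectedSpace (TopBd X))
    (h2 : PiTriv (TopBd X) (Multiplicative (ZMod 2))) (hLC : HasLC X) : PiTriv (TopBd X) SU2 := by
  obtain ⟨n, K, hK, hLCK, ⟨e⟩⟩ := hLC
  have hM : IsMfd (realization K) := isMfd_homeo e.symm hX
  have hcK : ContractibleSpace (realization K) := e.contractibleSpace
  have hbd := topBd_eq hBD1 hBD2 hBD3 hK hLCK hM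
  -- the homeomorphism of the boundaries
  have h0 : Nonempty (realization (bd K) ≃ₜ TopBd X) := by
    have hsub : realization (bd K) ⊆ realization K := by
      rintro x ⟨ha, hb, σ, hσ, hc⟩
      exact ⟨ha, hb, σ, (mem_filter.1 hσ).1, hc⟩
    have e1 : realization (bd K) ≃ₜ {q : realization K | q.1 ∈ realization (bd K)} :=
      { toFun := fun x => ⟨⟨x.1, hsub x.2⟩, x.2⟩
        invFun := fun q => ⟨q.1.1, q.2⟩
        left_inv := fun _ => rfl
        right_inv := fun _ => rfl
        continuous_toFun := by fun_prop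
        continuous_invFun := by fun_prop }
    have e2 : {q : realization K | q.1 ∈ realization (bd K)} ≃ₜ TopBd X := by
      refine e.sets ?_
      rw [← hbd]
      ext q
      constructor
      · intro hq
        exact topBd_homeo e.symm (e q) (by rwa [e.symm_apply_apply])
      · exact topBd_homeo e q
    exact ⟨e1.trans e2⟩
  obtain ⟨h⟩ := h0
  have hpc : PathConnectedSpace (realization (bd K)) := h.symm.surjective.pathConnectedSpace h.symm.continuous
  have hne : (bd K).Nonempty := by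
    obtain ⟨x, -, -, σ, hσ, -⟩ := hpc.nonempty.some
    exact ⟨σ, hσ⟩
  have hcx : IsCx (bd K) := bd_isCx hK hne
  have hec : EConn (bd K) := hCON n (bd K) hcx hpc
  have hB := hPI2 n (bd K) hcx hpc (Multiplicative (ZMod 2)) (piTriv_homeo h.symm h2)
  obtain ⟨Rs, hRs, hext⟩ := t_COL2 hRDG (Fin n) K hK hLCK
  have hZ := hINJ n K hK (hACY n K hK hcK)
  have hsur := sur2 hK hRs hext hZ hB
  apply piTriv_homeo h
  apply hPI1 n (bd K) hcx hec SU2
  intro ρ hρ
  obtain ⟨ρ', h3, h4⟩ := sol_core hBU hK hRs hsur hρ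
  exact triv_of hTRV hK hLCK h3 h4

end Pool.Agent.L0h44.LC
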