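import Mathlib
import Pool.Agent.L0h44.LC.Stm

set_option autoImplicit false

/-!
# Project LC: the group of the Brieskorn sphere `Σ(2,5,7)` has a nontrivial representation in SU(2)
-/

namespace Pool.Agent.L0h44.LC

open Matrix

/-- the relators of the fundamental group of the Brieskorn sphere `Σ(2,5,7)`; the generators `0, 1, 2, 3` are
`x, y, z, h`: `h` is central, `x² = h`, `y⁵ = h⁻¹`, `z⁷ = h⁻²`, `x y z = 1` -/
def rels257 : Set (FreeGroup (Fin 4)) :=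
  {FreeGroup.of 3 * FreeGroup.of 0 * (FreeGroup.of 3)⁻¹ * (FreeGroup.of 0)⁻¹,
    FreeGroup.of 3 * FreeGroup.of 1 * (FreeGroup.of 3)⁻¹ * (FreeGroup.of 1)⁻¹,
    FreeGroup.of 3 * FreeGroup.of 2 * (FreeGroup.of 3)⁻¹ * (FreeGroup.of 2)⁻¹,
    FreeGroup.of 0 ^ 2 * (FreeGroup.of 3)⁻¹, FreeGroup.of 1 ^ 5 * FreeGroup.of 3,
    FreeGroup.of 2 ^ 7 * FreeGroup.of 3 ^ 2, FreeGroup.of 0 * FreeGroup.of 1 * FreeGroup.of 2}

/-- the fundamental group of the Brieskorn sphere `Σ(2,5,7)` -/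
abbrev Brieskorn257 : Type := PresentedGroup rels257

theorem su2_sq {U : Matrix (Fin 2) (Fin 2) ℂ} (hdet : U.det = 1) : U * U = U.trace • U - 1 := by
  rw [Matrix.det_fin_two] at hdet
  ext i j
  fin_cases i <;> fin_cases j <;>
    simp [Matrix.mul_apply, Fin.sum_univ_two, Matrix.trace_fin_two]
  · linear_combination -hdet
  · ring
  · ring
  · linear_combination -hdet

theorem su2_sq' {U : Matrix (Fin 2) (Fin 2) ℂ} (hdet : U.det = 1) {θ : ℝ} (ht : U.trace = 2 * (Real.cos θ : ℂ)) :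
    U * U = (2 * (Real.cos θ : ℂ)) • U - 1 := by
  rw [su2_sq hdet, ht]

theorem su2_pow {U : Matrix (Fin 2) (Fin 2) ℂ} (hdet : U.det = 1) {θ : ℝ} (ht : U.trace = 2 * (Real.cos θ : ℂ))
    (n : ℕ) : (Real.sin θ : ℂ) • U ^ (n + 1) = (Real.sin ((n + 1) * θ) : ℂ) • U - (Real.sin (n * θ) : ℂ) • 1 := by
  induction n with
  | zero => simp
  | succ n ih =>
    have h1 : (Real.sin θ : ℂ) • U ^ (n + 1 + 1) = ((Real.sin θ : ℂ) • U ^ (n + 1)) * U := by
      rw [pow_succ U (n + 1), Matrix.smul_mul]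
    rw [h1, ih, Matrix.sub_mul, Matrix.smul_mul, Matrix.smul_mul, Matrix.one_mul, su2_sq' hdet ht, smul_sub, smul_smul]
    have h2 : (Real.sin ((n + 1) * θ) : ℂ) * (2 * (Real.cos θ : ℂ)) =
        (Real.sin (((n + 1 : ℕ) + 1) * θ) : ℂ) + (Real.sin (n * θ) : ℂ) := by
      rw [← Complex.ofReal_add]
      have h3 : Real.sin (((n + 1 : ℕ) + 1) * θ) + Real.sin (n * θ) = Real.sin ((n + 1) * θ) * (2 * Real.cos θ) := by
        have e1 : (((n + 1 : ℕ) : ℝ) + 1) * θ = (n + 1) * θ + θ := by push_cast; ring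
        have e2 : (n : ℝ) * θ = (n + 1) * θ - θ := by ring
        rw [e1, e2, Real.sin_add, Real.sin_sub]
        ring
      rw [h3]
      push_cast
      ring
    rw [h2, add_smul]
    push_cast
    abel

theorem su2_pow5 {U : Matrix (Fin 2) (Fin 2) ℂ} (hdet : U.det = 1)
    (ht : U.trace = 2 * (Real.cos (3 * Real.pi / 5) : ℂ)) : U ^ 5 = -1 := by
  have h := su2_pow hdet ht 4
  have hs : Real.sin (3 * Real.pi / 5) ≠ 0 :=
    (Real.sin_pos_of_pos_of_lt_pi (by positivity) (by linarith [Real.pi_pos])).ne'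
  have h1 : Real.sin (((4 : ℕ) + 1) * (3 * Real.pi / 5)) = 0 := by
    have : ((4 : ℕ) + 1 : ℝ) * (3 * Real.pi / 5) = (3 : ℕ) * Real.pi := by push_cast; ring
    rw [this, Real.sin_nat_mul_pi]
  have h2 : Real.sin ((4 : ℕ) * (3 * Real.pi / 5)) = Real.sin (3 * Real.pi / 5) := by
    have : ((4 : ℕ) : ℝ) * (3 * Real.pi / 5) = Real.pi - 3 * Real.pi / 5 + (1 : ℕ) * (2 * Real.pi) := by push_cast; ring
    rw [this, Real.sin_add_nat_mul_two_pi, Real.sin_pi_sub]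
  rw [h1, h2, Complex.ofReal_zero, zero_smul, zero_sub, ← smul_neg] at h
  have hs' : (Real.sin (3 * Real.pi / 5) : ℂ) ≠ 0 := by exact_mod_cast hs
  exact smul_right_injective _ hs' h

theorem su2_pow7 {U : Matrix (Fin 2) (Fin 2) ℂ} (hdet : U.det = 1)
    (ht : U.trace = 2 * (Real.cos (4 * Real.pi / 7) : ℂ)) : U ^ 7 = 1 := by
  have h := su2_pow hdet ht 6
  have hs : Real.sin (4 * Real.pi / 7) ≠ 0 :=
    (Real.sin_pos_of_pos_of_lt_pi (by positivity) (by linarith [Real.pi_pos])).ne'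
  have h1 : Real.sin (((6 : ℕ) + 1) * (4 * Real.pi / 7)) = 0 := by
    have : ((6 : ℕ) + 1 : ℝ) * (4 * Real.pi / 7) = (4 : ℕ) * Real.pi := by push_cast; ring
    rw [this, Real.sin_nat_mul_pi]
  have h2 : Real.sin ((6 : ℕ) * (4 * Real.pi / 7)) = - Real.sin (4 * Real.pi / 7) := by
    have : ((6 : ℕ) : ℝ) * (4 * Real.pi / 7) = -(4 * Real.pi / 7) + (2 : ℕ) * (2 * Real.pi) := by push_cast; ring
    rw [this, Real.sin_add_nat_mul_two_pi, Real.sin_neg]
  rw [h1, h2, Complex.ofReal_zero, zero_smul, zero_sub, Complex.ofReal_neg, neg_smul, neg_neg] at h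
  have hs' : (Real.sin (4 * Real.pi / 7) : ℂ) ≠ 0 := by exact_mod_cast hs
  exact smul_right_injective _ hs' h

/-- the matrices -/
theorem exists_mats : ∃ X Y Z : SU2, X ^ 2 * X ^ 2 = 1 ∧ X ^ 2 ≠ 1 ∧ Y ^ 5 = X ^ 2 ∧ Z ^ 7 = 1 ∧ X * Y * Z = 1 ∧
    (∀ U : SU2, X ^ 2 * U = U * X ^ 2) := by
  obtain ⟨c, hc⟩ : ∃ c : ℝ, c = -Real.cos (4 * Real.pi / 7) / Real.sin (3 * Real.pi / 5) := ⟨_, rfl⟩
  have hs : 0 < Real.sin (3 * Real.pi / 5) :=
    Real.sin_pos_of_pos_of_lt_pi (by positivity) (by linarith [Real.pi_pos])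
  have h1 : Real.cos (4 * Real.pi / 7) = - Real.sin (Real.pi / 14) := by
    rw [← Real.cos_add_pi_div_two]
    congr 1
    ring
  have h2 : Real.sin (3 * Real.pi / 5) = Real.sin (2 * Real.pi / 5) := by
    rw [← Real.sin_pi_sub]
    congr 1
    ring
  have h3 : Real.sin (Real.pi / 14) ≤ Real.sin (2 * Real.pi / 5) :=
    Real.sin_le_sin_of_le_of_le_pi_div_two (by linarith [Real.pi_pos]) (by linarith [Real.pi_pos])
      (by linarith [Real.pi_pos])
  have h4 : 0 ≤ Real.sin (Real.pi / 14) :=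
    (Real.sin_pos_of_pos_of_lt_pi (by positivity) (by linarith [Real.pi_pos])).le
  have hc0 : 0 ≤ c := by
    rw [hc, h1, neg_neg]
    positivity
  have hc1 : c ≤ 1 := by
    rw [hc, h1, neg_neg, div_le_one hs, h2]
    exact h3
  obtain ⟨s, hs2⟩ : ∃ s : ℝ, c ^ 2 + s ^ 2 = 1 := by
    refine ⟨Real.sqrt (1 - c ^ 2), ?_⟩
    rw [Real.sq_sqrt (by nlinarith)]
    ring
  obtain ⟨p, hp⟩ : ∃ p : ℝ, p = Real.cos (3 * Real.pi / 5) := ⟨_, rfl⟩
  obtain ⟨q, hq⟩ : ∃ q : ℝ, q = Real.sin (3 * Real.pi / 5) := ⟨_, rfl⟩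
  have hpq : p ^ 2 + q ^ 2 = 1 := by rw [hp, hq]; exact Real.cos_sq_add_sin_sq _
  have hqc : q * c = -Real.cos (4 * Real.pi / 7) := by
    rw [hc, hq]
    field_simp
  -- X and Y
  have hXm : !![Complex.I, 0; 0, -Complex.I] ∈ Matrix.specialUnitaryGroup (Fin 2) ℂ := by
    rw [Matrix.mem_specialUnitaryGroup_iff, Matrix.mem_unitaryGroup_iff]
    constructor
    · ext i j
      fin_cases i <;> fin_cases j <;> simp [Matrix.mul_apply, Fin.sum_univ_two]
    · simp [Matrix.det_fin_two]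
  have hnorm : (p : ℂ) ^ 2 + (q : ℂ) ^ 2 * ((c : ℂ) ^ 2 + (s : ℂ) ^ 2) = 1 := by
    have : p ^ 2 + q ^ 2 * (c ^ 2 + s ^ 2) = 1 := by rw [hs2, mul_one, hpq]
    exact_mod_cast this
  have hI : Complex.I * Complex.I = -1 := Complex.I_mul_I
  have hYm : !![(p : ℂ) + q * c * Complex.I, -((q : ℂ) * s); (q : ℂ) * s, (p : ℂ) - q * c * Complex.I] ∈
      Matrix.specialUnitaryGroup (Fin 2) ℂ := by
    rw [Matrix.mem_specialUnitaryGroup_iff, Matrix.mem_unitaryGroup_iff]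
    constructor
    · ext i j
      fin_cases i <;> fin_cases j <;> simp [Matrix.mul_apply, Fin.sum_univ_two]
      · linear_combination hnorm - (q : ℂ) ^ 2 * (c : ℂ) ^ 2 * hI
      · ring
      · ring
      · linear_combination hnorm - (q : ℂ) ^ 2 * (c : ℂ) ^ 2 * hI
    · rw [Matrix.det_fin_two]
      simp only [Matrix.of_apply, Matrix.cons_val', Matrix.cons_val_zero, Matrix.cons_val_one, Matrix.cons_val_fin_one]
      linear_combination hnorm - (q : ℂ) ^ 2 * (c : ℂ) ^ 2 * hI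
  obtain ⟨X, hX⟩ : ∃ X : SU2, (X : Matrix (Fin 2) (Fin 2) ℂ) = !![Complex.I, 0; 0, -Complex.I] := ⟨⟨_, hXm⟩, rfl⟩
  obtain ⟨Y, hY⟩ : ∃ Y : SU2, (Y : Matrix (Fin 2) (Fin 2) ℂ) =
    !![(p : ℂ) + q * c * Complex.I, -((q : ℂ) * s); (q : ℂ) * s, (p : ℂ) - q * c * Complex.I] := ⟨⟨_, hYm⟩, rfl⟩
  have hX2 : ((X ^ 2 : SU2) : Matrix (Fin 2) (Fin 2) ℂ) = -1 := by
    show (X : Matrix (Fin 2) (Fin 2) ℂ) ^ 2 = -1
    rw [hX, pow_two]
    ext i j
    fin_cases i <;> fin_cases j <;> simp [Matrix.mul_apply, Fin.sum_univ_two]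
  have hdetY : (Y : Matrix (Fin 2) (Fin 2) ℂ).det = 1 := (Matrix.mem_specialUnitaryGroup_iff.1 Y.2).2
  have hY5 : ((Y ^ 5 : SU2) : Matrix (Fin 2) (Fin 2) ℂ) = -1 := by
    show (Y : Matrix (Fin 2) (Fin 2) ℂ) ^ 5 = -1
    apply su2_pow5 hdetY
    rw [hY, Matrix.trace_fin_two, ← hp]
    simp only [Matrix.of_apply, Matrix.cons_val', Matrix.cons_val_zero, Matrix.cons_val_one, Matrix.cons_val_fin_one]
    ring
  have hXY7 : ((X * Y) ^ 7 : SU2) = 1 := by
    apply Subtype.ext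
    show ((X : Matrix (Fin 2) (Fin 2) ℂ) * Y) ^ 7 = 1
    apply su2_pow7
    · rw [Matrix.det_mul, hdetY, (Matrix.mem_specialUnitaryGroup_iff.1 X.2).2, one_mul]
    · rw [hX, hY, Matrix.trace_fin_two]
      simp only [Matrix.mul_apply, Fin.sum_univ_two, Matrix.of_apply, Matrix.cons_val', Matrix.cons_val_zero,
        Matrix.cons_val_one, Matrix.cons_val_fin_one]
      have h5 : (q : ℂ) * c = -(Real.cos (4 * Real.pi / 7) : ℂ) := by
        rw [← Complex.ofReal_mul, hqc, Complex.ofReal_neg]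
      linear_combination 2 * (q : ℂ) * c * hI - 2 * h5
  refine ⟨X, Y, (X * Y)⁻¹, ?_, ?_, ?_, ?_, mul_inv_cancel _, ?_⟩
  · apply Subtype.ext
    show ((X ^ 2 : SU2) : Matrix (Fin 2) (Fin 2) ℂ) * ((X ^ 2 : SU2) : Matrix (Fin 2) (Fin 2) ℂ) = 1
    rw [hX2]; simp
  · intro h
    have h6 := congrArg (fun U : SU2 => (U : Matrix (Fin 2) (Fin 2) ℂ) 0 0) h
    simp only [hX2] at h6
    simp at h6
    norm_num at h6
  · apply Subtype.ext
    rw [hY5, hX2]
  · rw [inv_pow, hXY7, inv_one]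
  · intro U
    apply Subtype.ext
    show ((X ^ 2 : SU2) : Matrix (Fin 2) (Fin 2) ℂ) * U = U * ((X ^ 2 : SU2) : Matrix (Fin 2) (Fin 2) ℂ)
    rw [hX2]; simp

/-- the nontrivial representation -/
theorem exists_rep : ∃ φ : Brieskorn257 →* SU2, φ ≠ 1 := by
  obtain ⟨X, Y, Z, h1, h2, h3, h4, h5, h6⟩ := exists_mats
  let f : Fin 4 → SU2 := ![X, Y, Z, X ^ 2]
  have hf : ∀ r ∈ rels257, FreeGroup.lift f r = 1 := by
    intro r hr
    simp only [rels257, Set.mem_insert_iff, Set.mem_singleton_iff] at hr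
    have hcomm : ∀ U : SU2, X ^ 2 * U * (X ^ 2)⁻¹ * U⁻¹ = 1 := fun U => by rw [h6 U]; group
    rcases hr with rfl | rfl | rfl | rfl | rfl | rfl | rfl
    · simp only [map_mul, map_inv, FreeGroup.lift_apply_of]
      exact hcomm _
    · simp only [map_mul, map_inv, FreeGroup.lift_apply_of]
      exact hcomm _
    · simp only [map_mul, map_inv, FreeGroup.lift_apply_of]
      exact hcomm _
    · simp only [map_mul, map_pow, map_inv, FreeGroup.lift_apply_of]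
      exact mul_inv_cancel (X ^ 2)
    · simp only [map_mul, map_pow, FreeGroup.lift_apply_of]
      show Y ^ 5 * X ^ 2 = 1
      rw [h3, h1]
    · simp only [map_mul, map_pow, FreeGroup.lift_apply_of]
      show Z ^ 7 * (X ^ 2) ^ 2 = 1
      rw [h4, one_mul, pow_two (X ^ 2), h1]
    · simp only [map_mul, FreeGroup.lift_apply_of]
      exact h5
  refine ⟨PresentedGroup.toGroup hf, fun h => h2 ?_⟩
  have h7 := DFunLike.congr_fun h (PresentedGroup.of (3 : Fin 4))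
  rw [PresentedGroup.toGroup.of] at h7
  exact h7

/-- homomorphisms to `ℤ/2` are trivial -/
theorem rep_two (φ : Brieskorn257 →* Multiplicative (ZMod 2)) : φ = 1 := by
  have hsq : ∀ a : Multiplicative (ZMod 2), a * a = 1 := by decide
  have hrel : ∀ r ∈ rels257, φ (PresentedGroup.mk rels257 r) = 1 := by
    intro r hr
    have : PresentedGroup.mk rels257 r = 1 := PresentedGroup.one_of_mem hr
    rw [this, map_one]
  obtain ⟨x, hx⟩ : ∃ x, x = φ (PresentedGroup.of (0 : Fin 4)) := ⟨_, rfl⟩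
  obtain ⟨y, hy⟩ : ∃ y, y = φ (PresentedGroup.of (1 : Fin 4)) := ⟨_, rfl⟩
  obtain ⟨z, hz⟩ : ∃ z, z = φ (PresentedGroup.of (2 : Fin 4)) := ⟨_, rfl⟩
  obtain ⟨h, hh⟩ : ∃ h, h = φ (PresentedGroup.of (3 : Fin 4)) := ⟨_, rfl⟩
  have e1 := hrel (FreeGroup.of 0 ^ 2 * (FreeGroup.of 3)⁻¹) (by simp [rels257])
  have e2 := hrel (FreeGroup.of 1 ^ 5 * FreeGroup.of 3) (by simp [rels257])
  have e3 := hrel (FreeGroup.of 2 ^ 7 * FreeGroup.of 3 ^ 2) (by simp [rels257])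
  have e4 := hrel (FreeGroup.of 0 * FreeGroup.of 1 * FreeGroup.of 2) (by simp [rels257])
  simp only [map_mul, map_pow, map_inv] at e1 e2 e3 e4
  change φ (PresentedGroup.of 0) ^ 2 * (φ (PresentedGroup.of 3))⁻¹ = 1 at e1
  change φ (PresentedGroup.of 1) ^ 5 * φ (PresentedGroup.of 3) = 1 at e2
  change φ (PresentedGroup.of 2) ^ 7 * φ (PresentedGroup.of 3) ^ 2 = 1 at e3
  change φ (PresentedGroup.of 0) * φ (PresentedGroup.of 1) * φ (PresentedGroup.of 2) = 1 at e4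
  rw [← hx, ← hh] at e1
  rw [← hy, ← hh] at e2
  rw [← hz, ← hh] at e3
  rw [← hx, ← hy, ← hz] at e4
  have key : ∀ x y z h : Multiplicative (ZMod 2), x ^ 2 * h⁻¹ = 1 → y ^ 5 * h = 1 → z ^ 7 * h ^ 2 = 1 →
      x * y * z = 1 → x = 1 ∧ y = 1 ∧ z = 1 ∧ h = 1 := by decide
  obtain ⟨k1, k2, k3, k4⟩ := key x y z h e1 e2 e3 e4
  apply PresentedGroup.ext
  intro i
  fin_cases i
  · exact hx.symm.trans k1
  · exact hy.symm.trans k2
  · exact hz.symm.trans k3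
  · exact hh.symm.trans k4

end Pool.Agent.L0h44.LC
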