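import Mathlib
import Pool.Agent.L0h44.LC.FIN
import Pool.Agent.L0h44.LC.GRP
import Pool.Agent.Y364.E3.Tree

set_option autoImplicit false

/-!
# Project LC: the case of the Brieskorn sphere `Σ(2,5,7)`, and constructions in which the tree is built first
-/

namespace Pool.Agent.L0h44.LC

open Finset Pool.Agent.H933R3 Pool.Agent.Y364.E3 Topology

theorem piTriv_of_equiv {Y : Type} [TopologicalSpace Y] [PathConnectedSpace Y] {G H : Type} [Group G] [Group H]
    {x : Y} (e : FundamentalGroup Y x ≃* G) (hG : ∀ φ : G →* H, φ = 1) : PiTriv Y H := by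
  intro y φ
  let e1 : FundamentalGroup Y x ≃* FundamentalGroup Y y := FundamentalGroup.fundamentalGroupMulEquivOfPathConnected x y
  have h1 := hG (φ.comp ((e.symm.trans e1).toMonoidHom))
  ext g
  have h2 := DFunLike.congr_fun h1 ((e.symm.trans e1).symm g)
  simpa using h2

theorem triv_of_piTriv {Y : Type} [TopologicalSpace Y] {G H : Type} [Group G] [Group H]
    {x : Y} (e : FundamentalGroup Y x ≃* G) (h : PiTriv Y H) (φ : G →* H) : φ = 1 := by
  have h1 := h x (φ.comp e.toMonoidHom)
  ext g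
  have h2 := DFunLike.congr_fun h1 (e.symm g)
  simpa using h2

theorem stage_of_tree {V : Type} [DecidableEq V] {d : ℕ} {K 𝓕 T : Finset (Finset V)} (h : TreeStage d K 𝓕 T) :
    LCStage d K 𝓕 T := by
  induction h with
  | start F hF => exact LCStage.start F hF
  | attach 𝓕 T F F' R h hF hF' hn hR h1 h2 hT ih => exact LCStage.attach 𝓕 T F F' R ih hF hF' hn hR h1 h2 hT

theorem stage_of_glue {V : Type} [DecidableEq V] {d : ℕ} {K 𝓕 T G : Finset (Finset V)} (hT : LCStage d K 𝓕 T)
    (h : GlueStage d 𝓕 T G) : LCStage d K 𝓕 G := by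
  induction h with
  | start => exact hT
  | glue G F F' R A h hF hF' hne hR h1 h2 hG hA hAR hs ih =>
    exact LCStage.glue 𝓕 G F F' R A ih hF hF' hne hR h1 h2 hG hA hAR hs

theorem isLC_of_isTreeLC {V : Type} [DecidableEq V] {d : ℕ} {K : Finset (Finset V)} (h : IsTreeLC d K) : IsLC d K := by
  obtain ⟨h1, h2, 𝓕, T, G, h3, h4, h5, h6⟩ := h
  exact ⟨h1, h2, 𝓕, G, stage_of_glue (stage_of_tree h3) h4, h5, h6⟩

end Pool.Agent.L0h44.LC
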