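import Mathlib
import Pool.Agent.L0h44.LC.GRP

set_option autoImplicit false

/-!
# Project LC: the boundary of the Mazur manifold of the other sign

The Kirby diagram of `W` consists of an unknotted component `K` of framing 0 and the dotted circle `A`, with ten
crossings. `K` has seven arcs `k₁, ..., k₇` (generators `0, ..., 6`) and `A` has three arcs `a₁, a₂, a₃` (generators
`7, 8, 9`). Going along `K` from `k₁` one passes under `k₃, a₃, k₅, a₃, k₄, a₃, k₄` (crossings of signs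
`+ - + + + - -`), going along `A` from `a₁` one passes under `k₅, k₆, k₂` (signs `+ - -`). The clasp consists of the
crossings at which `k₃` becomes `k₄` (under `k₅`) and `k₅` becomes `k₆` (under `k₄`); at the two other crossings of
`K` with itself the strand `k₇, k₁, k₂` passes under the finger `k₃, k₄`. The arc `a₃` runs over the three strands
of `K` through the dotted circle. The writhe of `K` is 2, so that its longitude of framing 0 contains `k₁⁻²`.
-/

namespace Pool.Agent.L0h44.LC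

/-- the Wirtinger relator of a crossing of sign `s` at which the arc `i` passes under the arc `o` and becomes the
arc `u`: `u = o⁻ˢ i oˢ` -/
def crossing (s : ℤ) (o i u : Fin 10) : FreeGroup (Fin 10) :=
  (FreeGroup.of u)⁻¹ * FreeGroup.of o ^ (-s) * FreeGroup.of i * FreeGroup.of o ^ s

/-- the relators: the ten crossings, and the two longitudes of framing 0 -/
def relsMazur : Set (FreeGroup (Fin 10)) :=
  {crossing 1 2 0 1, crossing (-1) 9 1 2, crossing 1 4 2 3, crossing 1 9 3 4, crossing 1 3 4 5, crossing (-1) 9 5 6,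
    crossing (-1) 3 6 0, crossing 1 4 7 8, crossing (-1) 5 8 9, crossing (-1) 1 9 7,
    FreeGroup.of 2 * (FreeGroup.of 9)⁻¹ * FreeGroup.of 4 * FreeGroup.of 9 * FreeGroup.of 3 * (FreeGroup.of 9)⁻¹ *
      (FreeGroup.of 3)⁻¹ * (FreeGroup.of 0)⁻¹ * (FreeGroup.of 0)⁻¹,
    FreeGroup.of 4 * (FreeGroup.of 5)⁻¹ * (FreeGroup.of 1)⁻¹}

/-- the fundamental group of the result of the surgery of framing 0 on both components -/
abbrev MazurOther : Type := PresentedGroup relsMazur

/-! ### the quaternions with coordinates in `ℤ[φ]` -/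

/-- product in `ℤ[φ]`, `(a, b)` being `a + b φ` -/
def zm (x y : ℤ × ℤ) : ℤ × ℤ := (x.1 * y.1 + x.2 * y.2, x.1 * y.2 + x.2 * y.1 + x.2 * y.2)

/-- quaternions -/
abbrev Q4 : Type := (ℤ × ℤ) × (ℤ × ℤ) × (ℤ × ℤ) × (ℤ × ℤ)

/-- product of quaternions -/
def qm (p q : Q4) : Q4 :=
  (zm p.1 q.1 - zm p.2.1 q.2.1 - zm p.2.2.1 q.2.2.1 - zm p.2.2.2 q.2.2.2,
   zm p.1 q.2.1 + zm p.2.1 q.1 + zm p.2.2.1 q.2.2.2 - zm p.2.2.2 q.2.2.1,
   zm p.1 q.2.2.1 - zm p.2.1 q.2.2.2 + zm p.2.2.1 q.1 + zm p.2.2.2 q.2.1,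
   zm p.1 q.2.2.2 + zm p.2.1 q.2.2.1 - zm p.2.2.1 q.2.1 + zm p.2.2.2 q.1)

/-- conjugate -/
def qc (p : Q4) : Q4 := (p.1, -p.2.1, -p.2.2.1, -p.2.2.2)

/-- the matrix of a real quaternion -/
noncomputable def qN (a b c d : ℝ) : Matrix (Fin 2) (Fin 2) ℂ :=
  !![(a : ℂ) + b * Complex.I, (c : ℂ) + d * Complex.I; -(c : ℂ) + d * Complex.I, (a : ℂ) - b * Complex.I]

theorem qN_mul (a b c d e f g k : ℝ) : qN a b c d * qN e f g k =
    qN (a * e - b * f - c * g - d * k) (a * f + b * e + c * k - d * g) (a * g - b * k + c * e + d * f)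
      (a * k + b * g - c * f + d * e) := by
  have hI : Complex.I * Complex.I = -1 := Complex.I_mul_I
  ext i j
  fin_cases i <;> fin_cases j <;> simp [qN, Matrix.mul_apply, Fin.sum_univ_two]
  · linear_combination ((b : ℂ) * f + d * k) * hI
  · linear_combination ((b : ℂ) * k - d * f) * hI
  · linear_combination ((d : ℂ) * f - b * k) * hI
  · linear_combination ((b : ℂ) * f + d * k) * hI

theorem qN_star (a b c d : ℝ) : star (qN a b c d) = qN a (-b) (-c) (-d) := by
  ext i j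
  fin_cases i <;> fin_cases j <;> simp [qN, Matrix.star_apply, sub_eq_add_neg]

theorem qN_one : qN 1 0 0 0 = 1 := by
  ext i j
  fin_cases i <;> fin_cases j <;> simp [qN]

theorem qN_mem {a b c d : ℝ} (h : a ^ 2 + b ^ 2 + c ^ 2 + d ^ 2 = 1) : qN a b c d ∈ Matrix.specialUnitaryGroup (Fin 2) ℂ := by
  rw [Matrix.mem_specialUnitaryGroup_iff, Matrix.mem_unitaryGroup_iff]
  constructor
  · rw [qN_star, qN_mul, ← qN_one]
    congr 1
    · linear_combination h
    · ring
    · ring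
    · ring
  · have hI : Complex.I * Complex.I = -1 := Complex.I_mul_I
    have h' : (a : ℂ) ^ 2 + b ^ 2 + c ^ 2 + d ^ 2 = 1 := by exact_mod_cast h
    simp [qN, Matrix.det_fin_two]
    linear_combination h' - ((b : ℂ) ^ 2 + d ^ 2) * hI

/-- the value of `a + b φ` -/
noncomputable def ev (x : ℤ × ℤ) : ℝ := x.1 + x.2 * Real.goldenRatio

theorem ev_mul (x y : ℤ × ℤ) : ev (zm x y) = ev x * ev y := by
  have h := Real.goldenRatio_sq
  simp only [ev, zm]
  push_cast
  linear_combination -((x.2 : ℝ) * y.2) * h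

theorem ev_add (x y : ℤ × ℤ) : ev (x + y) = ev x + ev y := by
  simp only [ev, Prod.fst_add, Prod.snd_add]
  push_cast
  ring

theorem ev_sub (x y : ℤ × ℤ) : ev (x - y) = ev x - ev y := by
  simp only [ev, Prod.fst_sub, Prod.snd_sub]
  push_cast
  ring

theorem ev_neg (x : ℤ × ℤ) : ev (-x) = -ev x := by
  simp only [ev, Prod.fst_neg, Prod.snd_neg]
  push_cast
  ring

/-- the matrix of a quaternion -/
noncomputable def qM (p : Q4) : Matrix (Fin 2) (Fin 2) ℂ := qN (ev p.1) (ev p.2.1) (ev p.2.2.1) (ev p.2.2.2)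

theorem qM_mul (p q : Q4) : qM p * qM q = qM (qm p q) := by
  simp only [qM, qm, qN_mul, ev_mul, ev_add, ev_sub]

theorem qM_star (p : Q4) : star (qM p) = qM (qc p) := by
  simp only [qM, qc, qN_star, ev_neg]

/-- `U` is `2⁻ⁿ p` -/
def IsQ (n : ℕ) (U : SU2) (p : Q4) : Prop := ((2 : ℂ) ^ n) • (U : Matrix (Fin 2) (Fin 2) ℂ) = qM p

theorem IsQ.mul {n m : ℕ} {U V : SU2} {p q : Q4} (h1 : IsQ n U p) (h2 : IsQ m V q) : IsQ (n + m) (U * V) (qm p q) := by
  unfold IsQ at *
  rw [← qM_mul, ← h1, ← h2, Matrix.smul_mul, Matrix.mul_smul, smul_smul, pow_add]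
  rfl

theorem IsQ.inv {n : ℕ} {U : SU2} {p : Q4} (h : IsQ n U p) : IsQ n U⁻¹ (qc p) := by
  unfold IsQ at *
  rw [← qM_star, ← h, star_smul]
  have h1 : ((U⁻¹ : SU2) : Matrix (Fin 2) (Fin 2) ℂ) = star (U : Matrix (Fin 2) (Fin 2) ℂ) := rfl
  rw [h1]
  simp

theorem IsQ.eq_one {n : ℕ} {U : SU2} {p : Q4} (h : IsQ n U p)
    (hp : p = (((2 ^ n : ℤ), 0), (0, 0), (0, 0), (0, 0))) : U = 1 := by
  unfold IsQ at h
  have h1 : qM p = ((2 : ℂ) ^ n) • (1 : Matrix (Fin 2) (Fin 2) ℂ) := by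
    rw [hp]
    ext i j
    fin_cases i <;> fin_cases j <;> simp [qM, qN, ev]
  rw [h1] at h
  have h2 : ((2 : ℂ) ^ n) ≠ 0 := pow_ne_zero _ two_ne_zero
  apply Subtype.ext
  exact smul_right_injective _ h2 h

/-- the quaternions of the arcs, times 2 -/
def arcQ : Fin 10 → Q4 :=
  ![((0, 1), (0, 0), (-1, 0), (-1, 1)), ((0, 1), (1, -1), (0, 0), (1, 0)), ((0, 1), (1, 0), (-1, 1), (0, 0)),
    ((0, 1), (-1, 1), (0, 0), (1, 0)), ((0, 1), (-1, 0), (-1, 1), (0, 0)), ((0, 1), (0, 0), (1, 0), (1, -1)),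
    ((0, 1), (1, -1), (0, 0), (1, 0)), ((1, -1), (0, 1), (-1, 0), (0, 0)), ((1, -1), (0, 1), (-1, 0), (0, 0)),
    ((1, -1), (0, 0), (0, -1), (-1, 0))]

theorem exists_isQ (p : Q4) (hp : qm p (qc p) = ((4, 0), (0, 0), (0, 0), (0, 0))) : ∃ U : SU2, IsQ 1 U p := by
  have h1 : (ev p.1) ^ 2 + (ev p.2.1) ^ 2 + (ev p.2.2.1) ^ 2 + (ev p.2.2.2) ^ 2 = 4 := by
    have h2 := congrArg (fun q : Q4 => ev q.1) hp
    simp only [qm, qc, ev_mul, ev_sub, ev_neg] at h2
    have h3 : ev (4, 0) = 4 := by simp [ev]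
    rw [h3] at h2
    linear_combination h2
  have h4 : (ev p.1 / 2) ^ 2 + (ev p.2.1 / 2) ^ 2 + (ev p.2.2.1 / 2) ^ 2 + (ev p.2.2.2 / 2) ^ 2 = 1 := by
    linear_combination h1 / 4
  refine ⟨⟨_, qN_mem h4⟩, ?_⟩
  unfold IsQ
  ext i j
  fin_cases i <;> fin_cases j <;> simp [qM, qN] <;> ring

theorem arcQ_norm (i : Fin 10) : qm (arcQ i) (qc (arcQ i)) = ((4, 0), (0, 0), (0, 0), (0, 0)) := by
  revert i
  decide

theorem exists_rep_other : ∃ φ : MazurOther →* SU2, φ ≠ 1 := by
  choose g hg using fun i => exists_isQ (arcQ i) (arcQ_norm i)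
  have hcross : ∀ (s : ℤ) (o i u : Fin 10), (s = 1 ∨ s = -1) →
      (s = 1 → qm (arcQ i) (arcQ o) = qm (arcQ o) (arcQ u)) →
      (s = -1 → qm (arcQ o) (arcQ i) = qm (arcQ u) (arcQ o)) →
      FreeGroup.lift g (crossing s o i u) = 1 := by
    intro s o i u hs h1 h2
    have hinj : ∀ (U V : SU2) (n : ℕ) (p : Q4), IsQ n U p → IsQ n V p → U = V := by
      intro U V n p hU hV
      unfold IsQ at hU hV
      apply Subtype.ext
      exact smul_right_injective _ (pow_ne_zero n two_ne_zero : ((2 : ℂ) ^ n) ≠ 0) (hU.trans hV.symm)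
    rcases hs with rfl | rfl
    · have h3 : g i * g o = g o * g u := by
        refine hinj _ _ _ _ ((hg i).mul (hg o)) ?_
        rw [h1 rfl]
        exact (hg o).mul (hg u)
      simp only [crossing, map_mul, map_inv, FreeGroup.lift_apply_of, zpow_neg, zpow_one]
      rw [mul_assoc, h3]
      group
    · have h3 : g o * g i = g u * g o := by
        refine hinj _ _ _ _ ((hg o).mul (hg i)) ?_
        rw [h2 rfl]
        exact (hg u).mul (hg o)
      simp only [crossing, map_mul, map_inv, FreeGroup.lift_apply_of, zpow_neg, zpow_one, inv_inv]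
      rw [mul_assoc (g u)⁻¹, h3]
      group
  have hf : ∀ r ∈ relsMazur, FreeGroup.lift g r = 1 := by
    intro r hr
    simp only [relsMazur, Set.mem_insert_iff, Set.mem_singleton_iff] at hr
    rcases hr with rfl | rfl | rfl | rfl | rfl | rfl | rfl | rfl | rfl | rfl | rfl | rfl
    · exact hcross _ _ _ _ (Or.inl rfl) (fun _ => by decide) (fun h => absurd h (by decide))
    · exact hcross _ _ _ _ (Or.inr rfl) (fun h => absurd h (by decide)) (fun _ => by decide)
    · exact hcross _ _ _ _ (Or.inl rfl) (fun _ => by decide) (fun h => absurd h (by decide))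
    · exact hcross _ _ _ _ (Or.inl rfl) (fun _ => by decide) (fun h => absurd h (by decide))
    · exact hcross _ _ _ _ (Or.inl rfl) (fun _ => by decide) (fun h => absurd h (by decide))
    · exact hcross _ _ _ _ (Or.inr rfl) (fun h => absurd h (by decide)) (fun _ => by decide)
    · exact hcross _ _ _ _ (Or.inr rfl) (fun h => absurd h (by decide)) (fun _ => by decide)
    · exact hcross _ _ _ _ (Or.inl rfl) (fun _ => by decide) (fun h => absurd h (by decide))
    · exact hcross _ _ _ _ (Or.inr rfl) (fun h => absurd h (by decide)) (fun _ => by decide)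
    · exact hcross _ _ _ _ (Or.inr rfl) (fun h => absurd h (by decide)) (fun _ => by decide)
    · simp only [map_mul, map_inv, FreeGroup.lift_apply_of]
      exact (((((((((hg 2).mul (hg 9).inv).mul (hg 4)).mul (hg 9)).mul (hg 3)).mul (hg 9).inv).mul
        (hg 3).inv).mul (hg 0).inv).mul (hg 0).inv).eq_one (by decide)
    · simp only [map_mul, map_inv, FreeGroup.lift_apply_of]
      exact (((hg 4).mul (hg 5).inv).mul (hg 1).inv).eq_one (by decide)
  refine ⟨PresentedGroup.toGroup hf, fun h => ?_⟩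
  have h7 := DFunLike.congr_fun h (PresentedGroup.of (2 : Fin 10))
  rw [PresentedGroup.toGroup.of, MonoidHom.one_apply] at h7
  have h8 := hg 2
  rw [h7] at h8
  have h9 := congrArg (fun M : Matrix (Fin 2) (Fin 2) ℂ => (M 0 0).im) h8
  simp [qM, qN, arcQ, ev] at h9

theorem rep_two_other (φ : MazurOther →* Multiplicative (ZMod 2)) : φ = 1 := by
  have hrel : ∀ r ∈ relsMazur, φ (PresentedGroup.mk relsMazur r) = 1 := by
    intro r hr
    have : PresentedGroup.mk relsMazur r = 1 := PresentedGroup.one_of_mem hr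
    rw [this, map_one]
  obtain ⟨g, hg⟩ : ∃ g : Fin 10 → Multiplicative (ZMod 2), g = fun i => φ (PresentedGroup.of i) := ⟨_, rfl⟩
  have hof : ∀ i, φ (PresentedGroup.mk relsMazur (FreeGroup.of i)) = g i := fun i => by rw [hg]; rfl
  have key : ∀ o i u : Multiplicative (ZMod 2), u⁻¹ * o⁻¹ * i * o = 1 → u = i := by decide
  have key' : ∀ o i u : Multiplicative (ZMod 2), u⁻¹ * o * i * o⁻¹ = 1 → u = i := by decide
  have hc1 : ∀ o i u : Fin 10, crossing 1 o i u ∈ relsMazur → g u = g i := by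
    intro o i u h
    have h1 := hrel _ h
    simp only [crossing, map_mul, map_inv, zpow_neg, zpow_one, hof] at h1
    exact key _ _ _ h1
  have hc2 : ∀ o i u : Fin 10, crossing (-1) o i u ∈ relsMazur → g u = g i := by
    intro o i u h
    have h1 := hrel _ h
    simp only [crossing, map_mul, map_inv, zpow_neg, zpow_one, inv_inv, hof] at h1
    exact key' _ _ _ h1
  have e1 : g 1 = g 0 := hc1 2 0 1 (by simp [relsMazur])
  have e2 : g 2 = g 1 := hc2 9 1 2 (by simp [relsMazur])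
  have e3 : g 3 = g 2 := hc1 4 2 3 (by simp [relsMazur])
  have e4 : g 4 = g 3 := hc1 9 3 4 (by simp [relsMazur])
  have e5 : g 5 = g 4 := hc1 3 4 5 (by simp [relsMazur])
  have e6 : g 6 = g 5 := hc2 9 5 6 (by simp [relsMazur])
  have e8 : g 8 = g 7 := hc1 4 7 8 (by simp [relsMazur])
  have e9 : g 9 = g 8 := hc2 5 8 9 (by simp [relsMazur])
  have l1 := hrel (FreeGroup.of 2 * (FreeGroup.of 9)⁻¹ * FreeGroup.of 4 * FreeGroup.of 9 * FreeGroup.of 3 *
    (FreeGroup.of 9)⁻¹ * (FreeGroup.of 3)⁻¹ * (FreeGroup.of 0)⁻¹ * (FreeGroup.of 0)⁻¹) (by simp [relsMazur])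
  have l2 := hrel (FreeGroup.of 4 * (FreeGroup.of 5)⁻¹ * (FreeGroup.of 1)⁻¹) (by simp [relsMazur])
  simp only [map_mul, map_inv, hof] at l1 l2
  rw [e9, e8, e4, e3, e2, e1] at l1
  rw [e5, e4, e3, e2, e1] at l2
  have k1 : ∀ k : Multiplicative (ZMod 2), k * k⁻¹ * k⁻¹ = 1 → k = 1 := by decide
  have k2 : ∀ k a : Multiplicative (ZMod 2), k * a⁻¹ * k * a * k * a⁻¹ * k⁻¹ * k⁻¹ * k⁻¹ = 1 → a = 1 := by decide
  have z0 : g 0 = 1 := k1 _ l2
  have z7 : g 7 = 1 := k2 _ _ l1
  have z1 : g 1 = 1 := e1.trans z0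
  have z2 : g 2 = 1 := e2.trans z1
  have z3 : g 3 = 1 := e3.trans z2
  have z4 : g 4 = 1 := e4.trans z3
  have z5 : g 5 = 1 := e5.trans z4
  have z6 : g 6 = 1 := e6.trans z5
  have z8 : g 8 = 1 := e8.trans z7
  have z9 : g 9 = 1 := e9.trans z8
  apply PresentedGroup.ext
  intro i
  have : φ (PresentedGroup.of i) = g i := by rw [hg]
  rw [MonoidHom.one_apply, this]
  fin_cases i
  · exact z0
  · exact z1
  · exact z2
  · exact z3
  · exact z4
  · exact z5
  · exact z6
  · exact z7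
  · exact z8
  · exact z9

end Pool.Agent.L0h44.LC
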