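import Mathlib
import Pool.Agent.L0h44.LC.GRP

set_option autoImplicit false

/-!
# Project LC: a family of Seifert groups with nontrivial representations in SU(2)

The groups `x² = h`, `y^q = h⁻¹`, `z^r = h⁻²`, `xyz = 1`, `h` central. For `(q, r) = (5, 7)` this is the group of the
Brieskorn sphere `Σ(2,5,7)`, for `(q, r) = (3, 13)` the group of `Σ(2,3,13)`; in general it is the group of a homology
sphere if `(q - 2)(r - 4)` is `7` or `9`.
-/

namespace Pool.Agent.L0h44.LC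

/-- the relators; the generators `0, 1, 2, 3` are `x, y, z, h`: `h` is central, `x² = h`, `y^q = h⁻¹`, `z^r = h⁻²`,
`x y z = 1` -/
def relsSeifert (q r : ℕ) : Set (FreeGroup (Fin 4)) :=
  {FreeGroup.of 3 * FreeGroup.of 0 * (FreeGroup.of 3)⁻¹ * (FreeGroup.of 0)⁻¹,
    FreeGroup.of 3 * FreeGroup.of 1 * (FreeGroup.of 3)⁻¹ * (FreeGroup.of 1)⁻¹,
    FreeGroup.of 3 * FreeGroup.of 2 * (FreeGroup.of 3)⁻¹ * (FreeGroup.of 2)⁻¹,
    FreeGroup.of 0 ^ 2 * (FreeGroup.of 3)⁻¹, FreeGroup.of 1 ^ q * FreeGroup.of 3,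
    FreeGroup.of 2 ^ r * FreeGroup.of 3 ^ 2, FreeGroup.of 0 * FreeGroup.of 1 * FreeGroup.of 2}

/-- the group with generators `x, y, z, h` and relations `h` central, `x² = h`, `y^q = h⁻¹`, `z^r = h⁻²`, `xyz = 1`:
for `(q, r) = (5, 7), (3, 13)` the fundamental group of the Brieskorn sphere `Σ(2,q,r)` -/
abbrev SeifertGroup (q r : ℕ) : Type := PresentedGroup (relsSeifert q r)

theorem su2_powN {U : Matrix (Fin 2) (Fin 2) ℂ} (hdet : U.det = 1) {N k : ℕ} (hk : 0 < k) (hkN : k < N)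
    (ht : U.trace = 2 * (Real.cos (k * Real.pi / N) : ℂ)) : U ^ N = ((-1 : ℂ) ^ k) • (1 : Matrix (Fin 2) (Fin 2) ℂ) := by
  obtain ⟨M, rfl⟩ : ∃ M, N = M + 1 := ⟨N - 1, by omega⟩
  have h := su2_pow hdet ht M
  have hN : (0 : ℝ) < ((M + 1 : ℕ) : ℝ) := by positivity
  have hs : Real.sin (k * Real.pi / ((M + 1 : ℕ) : ℝ)) ≠ 0 := by
    refine (Real.sin_pos_of_pos_of_lt_pi (by positivity) ?_).ne'
    rw [div_lt_iff₀ hN, mul_comm Real.pi]
    have h1 : (k : ℝ) < ((M + 1 : ℕ) : ℝ) := by exact_mod_cast hkN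
    exact mul_lt_mul_of_pos_right h1 Real.pi_pos
  have e1 : ((M : ℝ) + 1) * (k * Real.pi / ((M + 1 : ℕ) : ℝ)) = k * Real.pi := by
    push_cast at hN ⊢
    field_simp
  have h1 : Real.sin (((M : ℝ) + 1) * (k * Real.pi / ((M + 1 : ℕ) : ℝ))) = 0 := by
    rw [e1, Real.sin_nat_mul_pi]
  have h2 : Real.sin ((M : ℝ) * (k * Real.pi / ((M + 1 : ℕ) : ℝ))) =
      -((-1) ^ k * Real.sin (k * Real.pi / ((M + 1 : ℕ) : ℝ))) := by
    have : (M : ℝ) * (k * Real.pi / ((M + 1 : ℕ) : ℝ)) = k * Real.pi - k * Real.pi / ((M + 1 : ℕ) : ℝ) := by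
      linear_combination e1
    rw [this, Real.sin_nat_mul_pi_sub]
  rw [h1, h2, Complex.ofReal_zero, zero_smul, zero_sub, Complex.ofReal_neg, neg_smul, neg_neg] at h
  have hs' : (Real.sin (k * Real.pi / ((M + 1 : ℕ) : ℝ)) : ℂ) ≠ 0 := by exact_mod_cast hs
  apply smul_right_injective _ hs'
  show (Real.sin (k * Real.pi / ((M + 1 : ℕ) : ℝ)) : ℂ) • U ^ (M + 1) =
    (Real.sin (k * Real.pi / ((M + 1 : ℕ) : ℝ)) : ℂ) • ((-1 : ℂ) ^ k) • (1 : Matrix (Fin 2) (Fin 2) ℂ)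
  rw [h, smul_smul]
  congr 1
  push_cast
  ring

theorem exists_mats_gen {β γ : ℝ} (hβ : 0 < Real.sin β) (hc : |Real.cos γ| ≤ Real.sin β) :
    ∃ X Y : SU2, ((X ^ 2 : SU2) : Matrix (Fin 2) (Fin 2) ℂ) = -1 ∧
      (Y : Matrix (Fin 2) (Fin 2) ℂ).trace = 2 * (Real.cos β : ℂ) ∧
      ((X * Y : SU2) : Matrix (Fin 2) (Fin 2) ℂ).trace = 2 * (Real.cos γ : ℂ) := by
  obtain ⟨c, hc0⟩ : ∃ c : ℝ, c = -Real.cos γ / Real.sin β := ⟨_, rfl⟩
  have hc2 : c ^ 2 ≤ 1 := by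
    rw [hc0, div_pow, neg_sq, div_le_one (by positivity), ← sq_abs (Real.cos γ)]
    exact pow_le_pow_left₀ (abs_nonneg _) hc 2
  obtain ⟨s, hs2⟩ : ∃ s : ℝ, c ^ 2 + s ^ 2 = 1 := by
    refine ⟨Real.sqrt (1 - c ^ 2), ?_⟩
    rw [Real.sq_sqrt (by linarith)]
    ring
  obtain ⟨p, hp⟩ : ∃ p : ℝ, p = Real.cos β := ⟨_, rfl⟩
  obtain ⟨q, hq⟩ : ∃ q : ℝ, q = Real.sin β := ⟨_, rfl⟩
  have hpq : p ^ 2 + q ^ 2 = 1 := by rw [hp, hq]; exact Real.cos_sq_add_sin_sq _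
  have hqc : q * c = -Real.cos γ := by
    rw [hc0, hq]
    field_simp
  have hXm : !![Complex.I, 0; 0, -Complex.I] ∈ Matrix.specialUnitaryGroup (Fin 2) ℂ := by
    rw [Matrix.mem_specialUnitaryGroup_iff, Matrix.mem_unitaryGroup_iff]
    constructor
    · ext i j
      fin_cases i <;> fin_cases j <;> simp [Matrix.mul_apply, Fin.sum_univ_two]
    · simp [Matrix.det_fin_two]
  have hnorm : (p : ℂ) ^ 2 + (q : ℂ) ^ 2 * ((c : ℂ) ^ 2 + (s : ℂ) ^ 2) = 1 := by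
    have : p ^ 2 + q ^ 2 * (c ^ 2 + s ^ 2) = 1 := by rw [hs2, mul_one, hpq]
    exact_mod_cast this
  have hI : Complex.I * Complex.I = -1 := Complex.I_mul_I
  have hYm : !![(p : ℂ) + q * c * Complex.I, -((q : ℂ) * s); (q : ℂ) * s, (p : ℂ) - q * c * Complex.I] ∈
      Matrix.specialUnitaryGroup (Fin 2) ℂ := by
    rw [Matrix.mem_specialUnitaryGroup_iff, Matrix.mem_unitaryGroup_iff]
    constructor
    · ext i j
      fin_cases i <;> fin_cases j <;> simp [Matrix.mul_apply, Fin.sum_univ_two]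
      · linear_combination hnorm - (q : ℂ) ^ 2 * (c : ℂ) ^ 2 * hI
      · ring
      · ring
      · linear_combination hnorm - (q : ℂ) ^ 2 * (c : ℂ) ^ 2 * hI
    · rw [Matrix.det_fin_two]
      simp only [Matrix.of_apply, Matrix.cons_val', Matrix.cons_val_zero, Matrix.cons_val_one, Matrix.cons_val_fin_one]
      linear_combination hnorm - (q : ℂ) ^ 2 * (c : ℂ) ^ 2 * hI
  obtain ⟨X, hX⟩ : ∃ X : SU2, (X : Matrix (Fin 2) (Fin 2) ℂ) = !![Complex.I, 0; 0, -Complex.I] := ⟨⟨_, hXm⟩, rfl⟩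
  obtain ⟨Y, hY⟩ : ∃ Y : SU2, (Y : Matrix (Fin 2) (Fin 2) ℂ) =
    !![(p : ℂ) + q * c * Complex.I, -((q : ℂ) * s); (q : ℂ) * s, (p : ℂ) - q * c * Complex.I] := ⟨⟨_, hYm⟩, rfl⟩
  refine ⟨X, Y, ?_, ?_, ?_⟩
  · show (X : Matrix (Fin 2) (Fin 2) ℂ) ^ 2 = -1
    rw [hX, pow_two]
    ext i j
    fin_cases i <;> fin_cases j <;> simp [Matrix.mul_apply, Fin.sum_univ_two]
  · rw [hY, Matrix.trace_fin_two, ← hp]
    simp only [Matrix.of_apply, Matrix.cons_val', Matrix.cons_val_zero, Matrix.cons_val_one, Matrix.cons_val_fin_one]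
    ring
  · show ((X : Matrix (Fin 2) (Fin 2) ℂ) * Y).trace = 2 * (Real.cos γ : ℂ)
    rw [hX, hY, Matrix.trace_fin_two]
    simp only [Matrix.mul_apply, Fin.sum_univ_two, Matrix.of_apply, Matrix.cons_val', Matrix.cons_val_zero,
      Matrix.cons_val_one, Matrix.cons_val_fin_one]
    have h5 : (q : ℂ) * c = -(Real.cos γ : ℂ) := by
      rw [← Complex.ofReal_mul, hqc, Complex.ofReal_neg]
    linear_combination 2 * (q : ℂ) * c * hI - 2 * h5

theorem exists_near {n : ℕ} (hn : 3 ≤ n) (ho : Odd n) (b : Bool) :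
    ∃ k : ℕ, (Odd k ↔ b = true) ∧ 0 < k ∧ k < n ∧ |k * Real.pi / n - Real.pi / 2| = Real.pi / (2 * n) := by
  obtain ⟨m, rfl⟩ := ho
  have hn' : (0 : ℝ) < ((2 * m + 1 : ℕ) : ℝ) := by positivity
  have h1 : |((m : ℕ) : ℝ) * Real.pi / ((2 * m + 1 : ℕ) : ℝ) - Real.pi / 2| =
      Real.pi / (2 * ((2 * m + 1 : ℕ) : ℝ)) := by
    have : ((m : ℕ) : ℝ) * Real.pi / ((2 * m + 1 : ℕ) : ℝ) - Real.pi / 2 =
        -(Real.pi / (2 * ((2 * m + 1 : ℕ) : ℝ))) := by
      push_cast at hn' ⊢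
      field_simp
      ring
    rw [this, abs_neg, abs_of_pos (by positivity)]
  have h2 : |((m + 1 : ℕ) : ℝ) * Real.pi / ((2 * m + 1 : ℕ) : ℝ) - Real.pi / 2| =
      Real.pi / (2 * ((2 * m + 1 : ℕ) : ℝ)) := by
    have : ((m + 1 : ℕ) : ℝ) * Real.pi / ((2 * m + 1 : ℕ) : ℝ) - Real.pi / 2 =
        Real.pi / (2 * ((2 * m + 1 : ℕ) : ℝ)) := by
      push_cast at hn' ⊢
      field_simp
      ring
    rw [this, abs_of_pos (by positivity)]
  rcases Nat.even_or_odd m with hm | hm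
  · cases b
    · exact ⟨m, by simpa using hm, by omega, by omega, h1⟩
    · exact ⟨m + 1, by simpa using hm.add_one, by omega, by omega, h2⟩
  · cases b
    · exact ⟨m + 1, by simpa using hm.add_one, by omega, by omega, h2⟩
    · exact ⟨m, by simpa using hm, by omega, by omega, h1⟩

theorem exists_mats_seifert {q r : ℕ} (hq : 3 ≤ q) (hr : 3 ≤ r) (hqo : Odd q) (hro : Odd r) :
    ∃ X Y Z : SU2, X ^ 2 * X ^ 2 = 1 ∧ X ^ 2 ≠ 1 ∧ Y ^ q = X ^ 2 ∧ Z ^ r = 1 ∧ X * Y * Z = 1 ∧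
    (∀ U : SU2, X ^ 2 * U = U * X ^ 2) := by
  obtain ⟨k, hk1, hk2, hk3, hk4⟩ := exists_near hq hqo true
  obtain ⟨m, hm1, hm2, hm3, hm4⟩ := exists_near hr hro false
  have hko : Odd k := hk1.2 rfl
  have hme : Even m := by
    rw [← Nat.not_odd_iff_even]
    intro h
    exact absurd (hm1.1 h) (by decide)
  have hq' : (3 : ℝ) ≤ q := by exact_mod_cast hq
  have hr' : (3 : ℝ) ≤ r := by exact_mod_cast hr
  have hpi := Real.pi_pos
  have hβ1 : 0 < k * Real.pi / q := by positivity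
  have hβ2 : k * Real.pi / q < Real.pi := by
    rw [div_lt_iff₀ (by positivity), mul_comm Real.pi]
    have : (k : ℝ) < q := by exact_mod_cast hk3
    exact mul_lt_mul_of_pos_right this hpi
  have hβ : 0 < Real.sin (k * Real.pi / q) := Real.sin_pos_of_pos_of_lt_pi hβ1 hβ2
  have hsb : Real.sin (k * Real.pi / q) = Real.cos (Real.pi / (2 * q)) := by
    rw [← hk4, Real.cos_abs, Real.cos_sub_pi_div_two]
  have hcg : |Real.cos (m * Real.pi / r)| = Real.sin (Real.pi / (2 * r)) := by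
    have h0 : Real.cos (m * Real.pi / r) = -Real.sin (m * Real.pi / r - Real.pi / 2) := by
      rw [Real.sin_sub_pi_div_two, neg_neg]
    rw [h0, abs_neg]
    have h1 : 0 ≤ Real.sin (Real.pi / (2 * r)) := by
      refine (Real.sin_pos_of_pos_of_lt_pi (by positivity) ?_).le
      rw [div_lt_iff₀ (by positivity)]
      nlinarith
    rcases abs_eq (by positivity : 0 ≤ Real.pi / (2 * (r : ℝ))) |>.1 hm4 with h2 | h2
    · rw [h2, abs_of_nonneg h1]
    · rw [h2, Real.sin_neg, abs_neg, abs_of_nonneg h1]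
  have hle : |Real.cos (m * Real.pi / r)| ≤ Real.sin (k * Real.pi / q) := by
    rw [hcg, hsb, ← Real.sin_pi_div_two_sub]
    have e1 : Real.pi / (2 * (r : ℝ)) ≤ Real.pi / 6 := by
      apply div_le_div_of_nonneg_left hpi.le (by norm_num) (by linarith)
    have e2 : Real.pi / (2 * (q : ℝ)) ≤ Real.pi / 6 := by
      apply div_le_div_of_nonneg_left hpi.le (by norm_num) (by linarith)
    have e3 : 0 < Real.pi / (2 * (r : ℝ)) := by positivity
    have e4 : 0 < Real.pi / (2 * (q : ℝ)) := by positivity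
    apply Real.sin_le_sin_of_le_of_le_pi_div_two <;> linarith
  obtain ⟨X, Y, hX2, hY, hXY⟩ := exists_mats_gen hβ hle
  have hYq : ((Y ^ q : SU2) : Matrix (Fin 2) (Fin 2) ℂ) = -1 := by
    show (Y : Matrix (Fin 2) (Fin 2) ℂ) ^ q = -1
    rw [su2_powN (Matrix.mem_specialUnitaryGroup_iff.1 Y.2).2 hk2 hk3 hY, hko.neg_one_pow, neg_smul, one_smul]
  have hXYr : (X * Y) ^ r = 1 := by
    apply Subtype.ext
    show ((X * Y : SU2) : Matrix (Fin 2) (Fin 2) ℂ) ^ r = 1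
    rw [su2_powN (Matrix.mem_specialUnitaryGroup_iff.1 (X * Y).2).2 hm2 hm3 hXY, hme.neg_one_pow, one_smul]
  refine ⟨X, Y, (X * Y)⁻¹, ?_, ?_, ?_, ?_, mul_inv_cancel _, ?_⟩
  · apply Subtype.ext
    show ((X ^ 2 : SU2) : Matrix (Fin 2) (Fin 2) ℂ) * ((X ^ 2 : SU2) : Matrix (Fin 2) (Fin 2) ℂ) = 1
    rw [hX2]; simp
  · intro h
    have h6 := congrArg (fun U : SU2 => (U : Matrix (Fin 2) (Fin 2) ℂ) 0 0) h
    simp only [hX2] at h6
    simp at h6
    norm_num at h6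
  · apply Subtype.ext
    rw [hYq, hX2]
  · rw [inv_pow, hXYr, inv_one]
  · intro U
    apply Subtype.ext
    show ((X ^ 2 : SU2) : Matrix (Fin 2) (Fin 2) ℂ) * U = U * ((X ^ 2 : SU2) : Matrix (Fin 2) (Fin 2) ℂ)
    rw [hX2]; simp

/-- the nontrivial representation -/
theorem exists_rep_seifert {q r : ℕ} (hq : 3 ≤ q) (hr : 3 ≤ r) (hqo : Odd q) (hro : Odd r) :
    ∃ φ : SeifertGroup q r →* SU2, φ ≠ 1 := by
  obtain ⟨X, Y, Z, h1, h2, h3, h4, h5, h6⟩ := exists_mats_seifert hq hr hqo hro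
  let f : Fin 4 → SU2 := ![X, Y, Z, X ^ 2]
  have hf : ∀ w ∈ relsSeifert q r, FreeGroup.lift f w = 1 := by
    intro w hw
    simp only [relsSeifert, Set.mem_insert_iff, Set.mem_singleton_iff] at hw
    have hcomm : ∀ U : SU2, X ^ 2 * U * (X ^ 2)⁻¹ * U⁻¹ = 1 := fun U => by rw [h6 U]; group
    rcases hw with rfl | rfl | rfl | rfl | rfl | rfl | rfl
    · simp only [map_mul, map_inv, FreeGroup.lift_apply_of]
      exact hcomm _
    · simp only [map_mul, map_inv, FreeGroup.lift_apply_of]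
      exact hcomm _
    · simp only [map_mul, map_inv, FreeGroup.lift_apply_of]
      exact hcomm _
    · simp only [map_mul, map_pow, map_inv, FreeGroup.lift_apply_of]
      exact mul_inv_cancel (X ^ 2)
    · simp only [map_mul, map_pow, FreeGroup.lift_apply_of]
      show Y ^ q * X ^ 2 = 1
      rw [h3, h1]
    · simp only [map_mul, map_pow, FreeGroup.lift_apply_of]
      show Z ^ r * (X ^ 2) ^ 2 = 1
      rw [h4, one_mul, pow_two (X ^ 2), h1]
    · simp only [map_mul, FreeGroup.lift_apply_of]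
      exact h5
  refine ⟨PresentedGroup.toGroup hf, fun h => h2 ?_⟩
  have h7 := DFunLike.congr_fun h (PresentedGroup.of (3 : Fin 4))
  rw [PresentedGroup.toGroup.of] at h7
  exact h7

/-- homomorphisms to `ℤ/2` are trivial -/
theorem rep_two_seifert {q r : ℕ} (hqo : Odd q) (hro : Odd r)
    (φ : SeifertGroup q r →* Multiplicative (ZMod 2)) : φ = 1 := by
  have hsq : ∀ a : Multiplicative (ZMod 2), a ^ 2 = 1 := by decide
  have hodd : ∀ (a : Multiplicative (ZMod 2)) {n : ℕ}, Odd n → a ^ n = a := by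
    rintro a n ⟨m, rfl⟩
    rw [pow_succ, pow_mul, hsq, one_pow, one_mul]
  have hrel : ∀ w ∈ relsSeifert q r, φ (PresentedGroup.mk (relsSeifert q r) w) = 1 := by
    intro w hw
    have : PresentedGroup.mk (relsSeifert q r) w = 1 := PresentedGroup.one_of_mem hw
    rw [this, map_one]
  obtain ⟨g, hg⟩ : ∃ g : Fin 4 → Multiplicative (ZMod 2), g = fun i => φ (PresentedGroup.of i) := ⟨_, rfl⟩
  have hof : ∀ i, φ (PresentedGroup.mk (relsSeifert q r) (FreeGroup.of i)) = g i := fun i => by rw [hg]; rfl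
  have e1 := hrel (FreeGroup.of 0 ^ 2 * (FreeGroup.of 3)⁻¹) (by simp [relsSeifert])
  have e2 := hrel (FreeGroup.of 1 ^ q * FreeGroup.of 3) (by simp [relsSeifert])
  have e3 := hrel (FreeGroup.of 2 ^ r * FreeGroup.of 3 ^ 2) (by simp [relsSeifert])
  have e4 := hrel (FreeGroup.of 0 * FreeGroup.of 1 * FreeGroup.of 2) (by simp [relsSeifert])
  simp only [map_mul, map_pow, map_inv, hof] at e1 e2 e3 e4
  rw [hodd _ hqo] at e2
  rw [hodd _ hro] at e3
  have key : ∀ x y z h : Multiplicative (ZMod 2), x ^ 2 * h⁻¹ = 1 → y * h = 1 → z * h ^ 2 = 1 →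
      x * y * z = 1 → x = 1 ∧ y = 1 ∧ z = 1 ∧ h = 1 := by decide
  obtain ⟨k1, k2, k3, k4⟩ := key _ _ _ _ e1 e2 e3 e4
  apply PresentedGroup.ext
  intro i
  have : φ (PresentedGroup.of i) = g i := by rw [hg]
  rw [MonoidHom.one_apply, this]
  fin_cases i
  · exact k1
  · exact k2
  · exact k3
  · exact k4

end Pool.Agent.L0h44.LC
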